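import Pool.Agent.Y396.Frankl.StrictUnital

/-!
# Final forms of the strict inequality
-/

set_option autoImplicit false

namespace Pool.Agent.Y396.Frankl

universe u v

variable (S : Type v) [CommRing S]

/-- **Unital subalgebras of finite unital algebras, strict form.** -/
theorem unital_subalgebras_lt {R : Type u} [Ring R] [Algebra S R] [Finite R]
    (h3 : ∃ K : Subalgebra S R, K ≠ ⊥ ∧ K ≠ ⊤) :
    ∃ x : R, 2 * Nat.card {H : Subalgebra S R // x ∈ H} < Nat.card (Subalgebra S R) := by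
  classical
  have h0 : ∃ x : R, ∀ k : S, x ≠ algebraMap S R k := by
    obtain ⟨K, hK1, hK2⟩ := h3
    by_contra hno
    push Not at hno
    apply hK1
    rw [eq_bot_iff]
    intro x _
    obtain ⟨k, hk⟩ := hno x
    exact Algebra.mem_bot.2 ⟨k, hk.symm⟩
  have hfinT : Finite (TwoSidedIdeal R) :=
    Finite.of_injective (fun H : TwoSidedIdeal R => (H : Set R)) SetLike.coe_injective
  -- an ideal that is maximal such that `R / I` is not generated by `1`
  obtain ⟨I, hI, hImax⟩ := Set.exists_max_image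
    {L : TwoSidedIdeal R | ∃ x : R, ∀ k : S, x - algebraMap S R k ∉ L}
    (fun L => (L : Set R).ncard) (Set.toFinite _) (by
      obtain ⟨x, hx⟩ := h0
      refine ⟨⊥, x, fun k hk => hx k ?_⟩
      exact sub_eq_zero.1 ((TwoSidedIdeal.mem_bot _).1 hk))
  obtain ⟨x₀, hx₀⟩ := hI
  let Q := I.ringCon.Quotient
  let q : R →+* Q := I.ringCon.mk'
  have hq : Function.Surjective q := I.ringCon.mk'_surjective
  have hqker : ∀ x : R, q x = 0 ↔ x ∈ I := by
    intro x
    rw [TwoSidedIdeal.mem_iff]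
    change I.ringCon.mk' x = 0 ↔ _
    rw [← map_zero I.ringCon.mk']
    exact Quotient.eq (r := I.ringCon.toSetoid)
  have hfinQ : Finite Q := Finite.of_surjective q hq
  let _ : Algebra S Q := (q.comp (algebraMap S R)).toAlgebra' (by
    intro c x
    obtain ⟨y, rfl⟩ := hq x
    rw [RingHom.comp_apply, ← map_mul, ← map_mul, Algebra.commutes])
  have hqs : ∀ s : S, algebraMap S Q s = q (algebraMap S R s) := fun s => rfl
  have hcases := agen_of_minimal' S (Q := Q)
    ⟨q x₀, fun k hk => hx₀ k (by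
      rw [← hqker, map_sub, ← hqs, hk, sub_self])⟩
    (by
      intro L hL x
      obtain ⟨y, rfl⟩ := hq x
      -- the preimage of `L`
      let L' : TwoSidedIdeal R := L.comap q
      have hL' : ∀ z, z ∈ L' ↔ q z ∈ L := fun z => TwoSidedIdeal.mem_comap q
      by_contra hno
      push Not at hno
      have h1 : L' ∈ {L : TwoSidedIdeal R | ∃ x : R, ∀ k : S, x - algebraMap S R k ∉ L} := by
        refine ⟨y, fun k hk => hno k ?_⟩
        rw [hL', map_sub] at hk
        exact hk
      have h2 : (I : Set R) ⊆ (L' : Set R) := by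
        intro z hz
        have h3 : q z = 0 := (hqker z).2 hz
        change z ∈ L'
        rw [hL', h3]
        exact L.zero_mem
      have h4 := Set.eq_of_subset_of_ncard_le h2 (hImax L' h1) (Set.toFinite _)
      apply hL
      rw [eq_bot_iff]
      intro z hz
      obtain ⟨w, rfl⟩ := hq z
      have h5 : w ∈ L' := (hL' w).2 hz
      have h6 : w ∈ I := by
        have h7 : w ∈ (L' : Set R) := h5
        rw [← h4] at h7
        exact h7
      rw [TwoSidedIdeal.mem_bot]
      exact (hqker w).2 h6)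
  let qa : R →ₐ[S] Q := { q with commutes' := fun s => rfl }
  have hqa : ∀ x, qa x = q x := fun x => rfl
  -- the subalgebra `S + I`
  let M : Subalgebra S R := (⊥ : Subalgebra S Q).comap qa
  have hM : ∀ x : R, x ∈ M ↔ ∃ k : S, q x = algebraMap S Q k := by
    intro x
    constructor
    · intro h
      obtain ⟨k, hk⟩ := Algebra.mem_bot.1 (show qa x ∈ (⊥ : Subalgebra S Q) from h)
      exact ⟨k, hk.symm⟩
    · rintro ⟨k, hk⟩
      exact (Algebra.mem_bot.2 ⟨k, hk.symm⟩ : qa x ∈ (⊥ : Subalgebra S Q))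
  rcases hcases with ⟨a', ha', hgen⟩ | ⟨a', b', ha', hb', hgen, K, haK, hbK, c', hcK, hc'⟩
  · obtain ⟨a, rfl⟩ := hq a'
    refine uone_gen_lt S M (a := a) (fun h => ?_) (fun x => ?_) h3
    · obtain ⟨k, hk⟩ := (hM a).1 h
      exact ha' k hk
    · have h8 : Algebra.adjoin S {q a} ≤ (Algebra.adjoin S {a}).map qa := by
        apply Algebra.adjoin_le
        rintro y rfl
        exact ⟨a, Algebra.subset_adjoin (by simp), rfl⟩
      rw [hgen] at h8
      obtain ⟨w, hw, hwx⟩ := h8 (show q x ∈ (⊤ : Subalgebra S Q) from trivial)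
      refine ⟨w, hw, (hM _).2 ⟨0, ?_⟩⟩
      have hwx' : q w = q x := hwx
      rw [map_sub, hwx', sub_self, map_zero]
  · obtain ⟨a, rfl⟩ := hq a'
    obtain ⟨b, rfl⟩ := hq b'
    refine ualg_crit_lt S M (a := a) (b := b) (fun h => ?_) (fun h => ?_) (fun x => ?_)
      ⟨K.comap qa, haK, hbK, fun H _ _ hH => ?_⟩
    · obtain ⟨k, hk⟩ := (hM a).1 h
      exact ha' k hk
    · obtain ⟨k, hk⟩ := (hM b).1 h
      exact hb' k hk
    · have h8 : Algebra.adjoin S {q a, q b} ≤ (Algebra.adjoin S {a, b}).map qa := by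
        apply Algebra.adjoin_le
        rintro y (rfl | rfl)
        · exact ⟨a, Algebra.subset_adjoin (by simp), rfl⟩
        · exact ⟨b, Algebra.subset_adjoin (by simp), rfl⟩
      rw [hgen] at h8
      obtain ⟨w, hw, hwx⟩ := h8 (show q x ∈ (⊤ : Subalgebra S Q) from trivial)
      refine ⟨w, hw, (hM _).2 ⟨0, ?_⟩⟩
      have hwx' : q w = q x := hwx
      rw [map_sub, hwx', sub_self, map_zero]
    · obtain ⟨c, rfl⟩ := hq c'
      have h9 : c ∈ K.comap qa := hcK
      rw [← hH] at h9
      obtain ⟨k, hk⟩ := (hM c).1 h9.2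
      exact hc' k hk

section fam

variable {R : Type u} [Fintype R] [DecidableEq R] {P : Type*} [SetLike P R]
  (A : Finset (Finset R)) (hA : ∀ X : Finset R, X ∈ A ↔ ∃ H : P, ∀ x, x ∈ X ↔ x ∉ H)

include hA in
theorem fam_bij [DecidablePred fun X : Finset R => X ∈ A] :
    ∃ e : P ≃ {X : Finset R // X ∈ A}, ∀ H x, x ∈ (e H).1 ↔ x ∉ H := by
  classical
  let f : P → {X : Finset R // X ∈ A} := fun H =>
    ⟨Finset.univ.filter fun x => x ∉ H, (hA _).2 ⟨H, fun x => by simp⟩⟩
  have hf : ∀ H x, x ∈ (f H).1 ↔ x ∉ H := fun H x => by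
    change x ∈ Finset.univ.filter (fun x => x ∉ H) ↔ _
    simp
  refine ⟨Equiv.ofBijective f ⟨?_, ?_⟩, fun H x => hf H x⟩
  · intro H K h
    apply SetLike.ext
    intro x
    rw [← not_iff_not, ← hf, ← hf, h]
  · rintro ⟨X, hX⟩
    obtain ⟨H, hH⟩ := (hA X).1 hX
    refine ⟨H, Subtype.ext (Finset.ext fun x => ?_)⟩
    rw [hf, hH]

include hA in
theorem fam_card : Nat.card P = A.card := by
  classical
  obtain ⟨e, _⟩ := fam_bij A hA
  rw [Nat.card_congr e]
  simp

include hA in
theorem fam_filter (x : R) :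
    Nat.card {H : P // x ∈ H} + (A.filter fun X => x ∈ X).card = A.card := by
  classical
  obtain ⟨e, he⟩ := fam_bij A hA
  have h1 : Nat.card {H : P // x ∈ H} = (A.filter fun X => x ∉ X).card := by
    have e1 : {H : P // x ∈ H} ≃ {X : {X : Finset R // X ∈ A} // x ∉ X.1} :=
      e.subtypeEquiv fun H => by
        rw [he, not_not]
    have e2 : {X : {X : Finset R // X ∈ A} // x ∉ X.1} ≃ {X : Finset R // X ∈ A ∧ x ∉ X} :=
      Equiv.subtypeSubtypeEquivSubtypeInter (fun X : Finset R => X ∈ A) (fun X => x ∉ X)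
    rw [Nat.card_congr (e1.trans e2), Nat.card_eq_fintype_card, Fintype.card_subtype]
    congr 1
    ext X
    simp
  rw [h1, add_comm]
  exact Finset.card_filter_add_card_filter_not _

end fam

/-- a proper nontrivial subobject exists as soon as there are three -/
theorem exists_middle {P : Type*} [Lattice P] [BoundedOrder P] (h : 3 ≤ Nat.card P) :
    ∃ K : P, K ≠ ⊥ ∧ K ≠ ⊤ := by
  classical
  by_contra hno
  push Not at hno
  have hfin : Finite P := Nat.finite_of_card_ne_zero (by omega)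
  haveI := Fintype.ofFinite P
  have h1 : (Finset.univ : Finset P) ⊆ {⊥, ⊤} := by
    intro K _
    by_cases hK : K = ⊥
    · simp [hK]
    · simp [hno K hK]
  have h2 := Finset.card_le_card h1
  have h3 : ({⊥, ⊤} : Finset P).card ≤ 2 := Finset.card_le_two
  rw [Finset.card_univ, ← Nat.card_eq_fintype_card] at h2
  omega

theorem strict_alg_family {R : Type u} [NonUnitalRing R] [Module S R]
    [IsScalarTower S R R] [SMulCommClass S R R] [Fintype R] [DecidableEq R]
    (A : Finset (Finset R))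
    (hA : ∀ X : Finset R, X ∈ A ↔ ∃ H : NonUnitalSubalgebra S R, ∀ x, x ∈ X ↔ x ∉ H) :
    (∀ X ∈ A, ∀ Y ∈ A, X ∪ Y ∈ A) ∧
      (3 ≤ A.card → ∃ x : R, A.card < 2 * (A.filter fun X => x ∈ X).card) := by
  constructor
  · intro X hX Y hY
    obtain ⟨H, hH⟩ := (hA X).1 hX
    obtain ⟨K, hK⟩ := (hA Y).1 hY
    refine (hA _).2 ⟨H ⊓ K, fun x => ?_⟩
    rw [Finset.mem_union, hH, hK, NonUnitalAlgebra.mem_inf, not_and_or]
  · intro h
    have h1 := fam_card A hA
    obtain ⟨x, hx⟩ := subalgebras_lt S (R := R) (exists_middle (by rw [h1]; exact h))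
    have h2 := fam_filter A hA x
    rw [h1] at hx
    exact ⟨x, by omega⟩

theorem strict_unital_family {R : Type u} [Ring R] [Algebra S R] [Fintype R] [DecidableEq R]
    (A : Finset (Finset R))
    (hA : ∀ X : Finset R, X ∈ A ↔ ∃ H : Subalgebra S R, ∀ x, x ∈ X ↔ x ∉ H) :
    (∀ X ∈ A, ∀ Y ∈ A, X ∪ Y ∈ A) ∧
      (3 ≤ A.card → ∃ x : R, A.card < 2 * (A.filter fun X => x ∈ X).card) := by
  constructor
  · intro X hX Y hY
    obtain ⟨H, hH⟩ := (hA X).1 hX
    obtain ⟨K, hK⟩ := (hA Y).1 hY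
    refine (hA _).2 ⟨H ⊓ K, fun x => ?_⟩
    rw [Finset.mem_union, hH, hK, Algebra.mem_inf, not_and_or]
  · intro h
    have h1 := fam_card A hA
    obtain ⟨x, hx⟩ := unital_subalgebras_lt S (R := R) (exists_middle (by rw [h1]; exact h))
    have h2 := fam_filter A hA x
    rw [h1] at hx
    exact ⟨x, by omega⟩

theorem strict_ring_family {R : Type u} [NonUnitalRing R] [Fintype R] [DecidableEq R]
    (A : Finset (Finset R))
    (hA : ∀ X : Finset R, X ∈ A ↔ 0 ∉ X ∧ ∀ a b : R, a ∉ X → b ∉ X → a - b ∉ X ∧ a * b ∉ X) :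
    (∀ X ∈ A, ∀ Y ∈ A, X ∪ Y ∈ A) ∧
      (3 ≤ A.card → ∃ x : R, A.card < 2 * (A.filter fun X => x ∈ X).card) := by
  refine strict_alg_family ℤ A fun X => ?_
  rw [hA]
  constructor
  · rintro ⟨h0, h1⟩
    have hneg : ∀ x : R, x ∉ X → -x ∉ X := fun x hx => by
      have := (h1 0 x h0 hx).1
      rwa [zero_sub] at this
    let H : NonUnitalSubring R :=
      { carrier := {x | x ∉ X}
        add_mem' := fun {a b} ha hb => by
          have := (h1 a (-b) ha (hneg b hb)).1
          rwa [sub_neg_eq_add] at this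
        zero_mem' := h0
        neg_mem' := fun {a} ha => hneg a ha
        mul_mem' := fun {a b} ha hb => (h1 a b ha hb).2 }
    exact ⟨subringEquiv R H, fun x => ⟨fun hx h => h hx, fun hx => by
      by_contra h; exact hx h⟩⟩
  · rintro ⟨H, hH⟩
    refine ⟨?_, fun a b ha hb => ?_⟩
    · rw [hH, not_not]; exact zero_mem H
    · rw [hH, not_not] at ha hb
      rw [hH, hH, not_not, not_not]
      exact ⟨sub_mem ha hb, mul_mem ha hb⟩

theorem strict_unital_ring_family {R : Type u} [Ring R] [Fintype R] [DecidableEq R]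
    (A : Finset (Finset R))
    (hA : ∀ X : Finset R, X ∈ A ↔ 1 ∉ X ∧ ∀ a b : R, a ∉ X → b ∉ X → a - b ∉ X ∧ a * b ∉ X) :
    (∀ X ∈ A, ∀ Y ∈ A, X ∪ Y ∈ A) ∧
      (3 ≤ A.card → ∃ x : R, A.card < 2 * (A.filter fun X => x ∈ X).card) := by
  refine strict_unital_family ℤ A fun X => ?_
  rw [hA]
  constructor
  · rintro ⟨h0, h1⟩
    have hzero : (0 : R) ∉ X := by
      have := (h1 1 1 h0 h0).1
      rwa [sub_self] at this
    have hneg : ∀ x : R, x ∉ X → -x ∉ X := fun x hx => by
      have := (h1 0 x hzero hx).1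
      rwa [zero_sub] at this
    let H : Subring R :=
      { carrier := {x | x ∉ X}
        add_mem' := fun {a b} ha hb => by
          have := (h1 a (-b) ha (hneg b hb)).1
          rwa [sub_neg_eq_add] at this
        zero_mem' := hzero
        one_mem' := h0
        neg_mem' := fun {a} ha => hneg a ha
        mul_mem' := fun {a b} ha hb => (h1 a b ha hb).2 }
    refine ⟨subalgebraOfSubring H, fun x => ?_⟩
    rw [mem_subalgebraOfSubring]
    exact ⟨fun hx h => h hx, fun hx => by
      by_contra h; exact hx h⟩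
  · rintro ⟨H, hH⟩
    refine ⟨?_, fun a b ha hb => ?_⟩
    · rw [hH, not_not]; exact H.one_mem
    · rw [hH, not_not] at ha hb
      rw [hH, hH, not_not, not_not]
      exact ⟨H.sub_mem ha hb, H.mul_mem ha hb⟩

end Pool.Agent.Y396.Frankl
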