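import Pool.Agent.Y396.Frankl.Main

/-!
# Final forms: subsemigroups of a finite semigroup
-/

set_option autoImplicit false

namespace Pool.Agent.Y396.Frankl

universe u

theorem twoGen_of_solvable (G : Type*) [Group G] [Finite G] (h : Group.IsSolvable G) : TwoGen G := by
  rcases subsingleton_or_nontrivial G with hs | hn
  · exact Or.inl hs
  right
  have h1 := Group.IsSolvable.commutator_lt_top_of_nontrivial G
  obtain ⟨N, hN, hle⟩ := (eq_top_or_exists_le_coatom (commutator G)).resolve_left h1.ne
  have hnorm : N.Normal := Subgroup.Normal.of_commutator_le G hle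
  obtain ⟨a, ha⟩ : ∃ a, a ∉ N := by
    by_contra hno
    push Not at hno
    exact hN.1 ((Subgroup.eq_top_iff' N).2 hno)
  refine ⟨N, hnorm, a, a, ha, ha, ?_⟩
  have h2 : N < Subgroup.closure (insert a (insert a (N : Set G))) := by
    refine lt_of_le_of_ne (fun x hx => Subgroup.subset_closure (by simp [hx])) ?_
    intro h
    apply ha
    rw [h]
    exact Subgroup.subset_closure (by simp)
  exact hN.2 _ h2

theorem groupCond_of {S : Type u} [Semigroup S] [Finite S]
    (h : ∀ (G : Type u) [Group G] (φ : G →ₙ* S), Function.Injective φ → Group.IsSolvable G ∨ TwoGen G) :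
    GroupCond S := by
  intro G _ φ hφ
  have : Finite G := Finite.of_injective φ hφ
  rcases h G φ hφ with h1 | h1
  · exact twoGen_of_solvable G h1
  · exact h1

/-- the lattice form, strict -/
theorem lattice_strict {S : Type u} [Semigroup S] [Finite S] (hG : GroupCond S)
    (hne : ∃ a b : S, a * b ≠ a ∧ a * b ≠ b) :
    ∃ x : S, 2 * Nat.card {H : Subsemigroup S // x ∈ H} < Nat.card (Subsemigroup S) := by
  rcases main _ S le_rfl hG with h | h
  · exact h
  · obtain ⟨a, b, h1, h2⟩ := hne
    rcases allClosed_iff.1 h a b with h3 | h3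
    · exact absurd h3 h1
    · exact absurd h3 h2

/-- the lattice form -/
theorem lattice {S : Type u} [Semigroup S] [Finite S] [Nonempty S] (hG : GroupCond S) :
    ∃ x : S, 2 * Nat.card {H : Subsemigroup S // x ∈ H} ≤ Nat.card (Subsemigroup S) := by
  rcases main _ S le_rfl hG with ⟨x, h⟩ | h
  · exact ⟨x, h.le⟩
  · obtain ⟨x⟩ := ‹Nonempty S›
    let f : Subsemigroup S → Subsemigroup S := fun H =>
      { carrier := {y | y ∈ H ∧ y ≠ x}
        mul_mem' := fun {a b} ha hb => h _ a ha b hb }
    have key := crit_card (𝓗 := Subsemigroup S) (fun H => x ∈ H) (fun H => x ∈ H) f ?_ ?_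
    · rcases key with h | h <;> exact ⟨x, h⟩
    · intro H K hH _ hK _ hHK
      ext y
      by_cases hy : y = x
      · rw [hy]; exact ⟨fun _ => hK, fun _ => hH⟩
      · have h1 : y ∈ f H ↔ y ∈ f K := by rw [hHK]
        constructor
        · intro hyH
          exact (h1.1 ⟨hyH, hy⟩).1
        · intro hyK
          exact (h1.2 ⟨hyK, hy⟩).1
    · intro H _ _
      exact ⟨fun h => h.2 rfl, fun h => h.2 rfl⟩

section family

variable {S : Type u} [Semigroup S] [Fintype S] [DecidableEq S] (A : Finset (Finset S))
  (hA : ∀ X : Finset S, X ∈ A ↔ ∀ a b : S, a ∉ X → b ∉ X → a * b ∉ X)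

/-- the family of complements corresponds to the subsemigroups -/
noncomputable def famEquiv : Subsemigroup S ≃ {X : Finset S // X ∈ A} := by
  classical
  exact
  { toFun := fun H => ⟨Finset.univ.filter fun x => x ∉ H, by
      rw [hA]
      intro a b ha hb
      simp only [Finset.mem_filter, Finset.mem_univ, true_and, not_not] at ha hb ⊢
      exact H.mul_mem ha hb⟩
    invFun := fun X =>
      { carrier := {x | x ∉ X.1}
        mul_mem' := fun {a b} ha hb => (hA X.1).1 X.2 a b ha hb }
    left_inv := fun H => by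
      ext x
      change x ∉ Finset.univ.filter (fun x => x ∉ H) ↔ x ∈ H
      simp
    right_inv := fun X => Subtype.ext (Finset.ext fun x => by
      refine Finset.mem_filter.trans ⟨fun h => ?_, fun h => ⟨Finset.mem_univ _, ?_⟩⟩
      · by_contra hx
        exact h.2 hx
      · exact fun hx => hx h) }

theorem famEquiv_mem (H : Subsemigroup S) (x : S) : x ∈ (famEquiv A hA H).1 ↔ x ∉ H := by
  classical
  change x ∈ Finset.univ.filter (fun x => x ∉ H) ↔ x ∉ H
  simp

include hA

omit [Fintype S] in
theorem fam_union : ∀ X ∈ A, ∀ Y ∈ A, X ∪ Y ∈ A := by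
  intro X hX Y hY
  rw [hA] at *
  intro a b ha hb
  rw [Finset.mem_union, not_or] at *
  exact ⟨hX a b ha.1 hb.1, hY a b ha.2 hb.2⟩

theorem fam_card : Nat.card (Subsemigroup S) = A.card := by
  rw [Nat.card_congr (famEquiv A hA)]
  simp

theorem fam_card_filter (x : S) :
    Nat.card {H : Subsemigroup S // x ∈ H} + (A.filter fun X => x ∈ X).card = A.card := by
  have h1 : Nat.card {H : Subsemigroup S // x ∈ H} = (A.filter fun X => x ∉ X).card := by
    have e1 : {H : Subsemigroup S // x ∈ H} ≃ {X : {X : Finset S // X ∈ A} // x ∉ X.1} :=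
      (famEquiv A hA).subtypeEquiv fun H => by
        rw [famEquiv_mem, not_not]
    have e2 : {X : {X : Finset S // X ∈ A} // x ∉ X.1} ≃ {X : Finset S // X ∈ A ∧ x ∉ X} :=
      Equiv.subtypeSubtypeEquivSubtypeInter (fun X : Finset S => X ∈ A) (fun X => x ∉ X)
    rw [Nat.card_congr (e1.trans e2), Nat.card_eq_fintype_card, Fintype.card_subtype]
    congr 1
    ext X
    simp
  rw [h1, add_comm]
  exact Finset.card_filter_add_card_filter_not _

end family

end Pool.Agent.Y396.Frankl
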