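import Mathlib

/-!
# The two-element criterion

If the members containing both `x` and `y` inject into the members containing neither of them, then
one of the two lies in at most half of the members.
-/

set_option autoImplicit false

namespace Pool.Agent.Y396.Frankl

theorem crit_card {𝓗 : Type*} [Finite 𝓗] (X Y : 𝓗 → Prop) (f : 𝓗 → 𝓗)
    (hinj : ∀ H K, X H → Y H → X K → Y K → f H = f K → H = K)
    (hf : ∀ H, X H → Y H → ¬ X (f H) ∧ ¬ Y (f H)) :
    2 * Nat.card {H // X H} ≤ Nat.card 𝓗 ∨ 2 * Nat.card {H // Y H} ≤ Nat.card 𝓗 := by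
  classical
  haveI := Fintype.ofFinite 𝓗
  have hX : Nat.card {H // X H} = (Finset.univ.filter X).card := by
    rw [Nat.card_eq_fintype_card, Fintype.card_subtype]
  have hY : Nat.card {H // Y H} = (Finset.univ.filter Y).card := by
    rw [Nat.card_eq_fintype_card, Fintype.card_subtype]
  have h1 : (Finset.univ.filter fun H => X H ∧ Y H).card ≤
      (Finset.univ.filter fun H => ¬ X H ∧ ¬ Y H).card := by
    refine Finset.card_le_card_of_injOn f ?_ ?_
    · intro H hH
      simp only [Finset.coe_filter, Finset.mem_univ, true_and, Set.mem_setOf_eq] at hH ⊢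
      exact hf H hH.1 hH.2
    · intro H hH K hK h
      simp only [Finset.coe_filter, Finset.mem_univ, true_and, Set.mem_setOf_eq] at hH hK
      exact hinj H K hH.1 hH.2 hK.1 hK.2 h
  have h2 : (Finset.univ.filter X).card + (Finset.univ.filter Y).card =
      (Finset.univ.filter fun H => X H ∨ Y H).card +
      (Finset.univ.filter fun H => X H ∧ Y H).card := by
    rw [← Finset.card_union_add_card_inter, Finset.filter_or, Finset.filter_and]
  have h3 : (Finset.univ.filter fun H => X H ∨ Y H).card +
      (Finset.univ.filter fun H => ¬ X H ∧ ¬ Y H).card = Fintype.card 𝓗 := by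
    have h4 : (Finset.univ.filter fun H => ¬ X H ∧ ¬ Y H) =
        Finset.univ.filter fun H => ¬ (X H ∨ Y H) := by
      ext H; simp [not_or]
    rw [h4, Finset.card_filter_add_card_filter_not]
    rfl
  rw [hX, hY, Nat.card_eq_fintype_card]
  omega

/-- strict form -/
theorem crit_card_lt {𝓗 : Type*} [Finite 𝓗] (X Y : 𝓗 → Prop) (f : 𝓗 → 𝓗)
    (hinj : ∀ H K, X H → Y H → X K → Y K → f H = f K → H = K)
    (hf : ∀ H, X H → Y H → ¬ X (f H) ∧ ¬ Y (f H))
    (hex : ∃ K, ¬ X K ∧ ¬ Y K ∧ ∀ H, X H → Y H → f H ≠ K) :
    2 * Nat.card {H // X H} < Nat.card 𝓗 ∨ 2 * Nat.card {H // Y H} < Nat.card 𝓗 := by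
  classical
  haveI := Fintype.ofFinite 𝓗
  have hX : Nat.card {H // X H} = (Finset.univ.filter X).card := by
    rw [Nat.card_eq_fintype_card, Fintype.card_subtype]
  have hY : Nat.card {H // Y H} = (Finset.univ.filter Y).card := by
    rw [Nat.card_eq_fintype_card, Fintype.card_subtype]
  obtain ⟨K₀, hK1, hK2, hK3⟩ := hex
  have h1 : (Finset.univ.filter fun H => X H ∧ Y H).card <
      (Finset.univ.filter fun H => ¬ X H ∧ ¬ Y H).card := by
    have h0 : (Finset.univ.filter fun H => X H ∧ Y H).card ≤
        ((Finset.univ.filter fun H => ¬ X H ∧ ¬ Y H).erase K₀).card := by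
      refine Finset.card_le_card_of_injOn f ?_ ?_
      · intro H hH
        simp only [Finset.coe_filter, Finset.mem_univ, true_and, Set.mem_setOf_eq] at hH
        rw [Finset.mem_coe, Finset.mem_erase]
        refine ⟨hK3 H hH.1 hH.2, ?_⟩
        simp only [Finset.mem_filter, Finset.mem_univ, true_and]
        exact hf H hH.1 hH.2
      · intro H hH K hK h
        simp only [Finset.coe_filter, Finset.mem_univ, true_and, Set.mem_setOf_eq] at hH hK
        exact hinj H K hH.1 hH.2 hK.1 hK.2 h
    refine lt_of_le_of_lt h0 (Finset.card_erase_lt_of_mem ?_)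
    simp only [Finset.mem_filter, Finset.mem_univ, true_and]
    exact ⟨hK1, hK2⟩
  have h2 : (Finset.univ.filter X).card + (Finset.univ.filter Y).card =
      (Finset.univ.filter fun H => X H ∨ Y H).card +
      (Finset.univ.filter fun H => X H ∧ Y H).card := by
    rw [← Finset.card_union_add_card_inter, Finset.filter_or, Finset.filter_and]
  have h3 : (Finset.univ.filter fun H => X H ∨ Y H).card +
      (Finset.univ.filter fun H => ¬ X H ∧ ¬ Y H).card = Fintype.card 𝓗 := by
    have h4 : (Finset.univ.filter fun H => ¬ X H ∧ ¬ Y H) =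
        Finset.univ.filter fun H => ¬ (X H ∨ Y H) := by
      ext H; simp [not_or]
    rw [h4, Finset.card_filter_add_card_filter_not]
    rfl
  rw [hX, hY, Nat.card_eq_fintype_card]
  omega

end Pool.Agent.Y396.Frankl
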