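import Pool.Agent.Y396.Frankl.RingPair
import Pool.Agent.Y396.Frankl.Crit

/-!
# Subalgebras of finite algebras (not necessarily unital)
-/

set_option autoImplicit false

namespace Pool.Agent.Y396.Frankl

universe u v

section nonunital

variable (S : Type v) [CommRing S] {R : Type u} [NonUnitalRing R] [Module S R]
  [IsScalarTower S R R] [SMulCommClass S R R] [Finite R]

theorem alg_crit (M : NonUnitalSubalgebra S R) {a b : R}
    (ha : a ∉ M) (hb : b ∉ M)
    (h : ∀ x : R, ∃ w ∈ NonUnitalAlgebra.adjoin S {a, b}, x - w ∈ M) :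
    ∃ x : R, 2 * Nat.card {H : NonUnitalSubalgebra S R // x ∈ H} ≤
      Nat.card (NonUnitalSubalgebra S R) := by
  have hfin : Finite (NonUnitalSubalgebra S R) :=
    Finite.of_injective (fun H : NonUnitalSubalgebra S R => (H : Set R)) SetLike.coe_injective
  have key : ∀ H K : NonUnitalSubalgebra S R, a ∈ H → b ∈ H → a ∈ K → b ∈ K →
      H ⊓ M ≤ K → H ≤ K := by
    intro H K haH hbH haK hbK hHK x hx
    obtain ⟨w, hw, hxw⟩ := h x
    have h1 : w ∈ H := (NonUnitalAlgebra.adjoin_le (by
      rintro y (rfl | rfl)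
      · exact haH
      · exact hbH)) hw
    have h2 : w ∈ K := (NonUnitalAlgebra.adjoin_le (by
      rintro y (rfl | rfl)
      · exact haK
      · exact hbK)) hw
    have h3 : x - w ∈ K := hHK ⟨sub_mem hx h1, hxw⟩
    have h4 := K.add_mem h3 h2
    rwa [sub_add_cancel] at h4
  rcases crit_card (𝓗 := NonUnitalSubalgebra S R) (fun H => a ∈ H) (fun H => b ∈ H)
    (fun H => H ⊓ M) (by
      intro H K haH hbH haK hbK h
      have h' : H ⊓ M = K ⊓ M := h
      exact le_antisymm (key H K haH hbH haK hbK (by rw [h']; exact inf_le_left))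
        (key K H haK hbK haH hbH (by rw [← h']; exact inf_le_left))) (by
      intro H _ _
      exact ⟨fun h => ha h.2, fun h => hb h.2⟩) with h | h
  · exact ⟨a, h⟩
  · exact ⟨b, h⟩

omit [IsScalarTower S R R] [SMulCommClass S R R] in
theorem exists_coatom_mod (N : Submodule S R)
    (hN : N ≠ ⊤) : ∃ P : Submodule S R, N ≤ P ∧ ∃ a, a ∉ P ∧ ∀ x, ∃ k : S, x - k • a ∈ P := by
  have hfin : Finite (Submodule S R) :=
    Finite.of_injective (fun H : Submodule S R => (H : Set R)) SetLike.coe_injective
  obtain ⟨P, hP, hNP⟩ := (eq_top_or_exists_le_coatom N).resolve_left hN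
  obtain ⟨a, ha⟩ : ∃ a, a ∉ P := by
    by_contra hno
    push Not at hno
    exact hP.1 ((Submodule.eq_top_iff').2 hno)
  refine ⟨P, hNP, a, ha, fun x => ?_⟩
  have h1 : P ⊔ Submodule.span S {a} = ⊤ := by
    apply hP.2
    refine lt_of_le_of_ne le_sup_left (fun h => ha ?_)
    rw [h]
    exact Submodule.mem_sup_right (Submodule.mem_span_singleton_self a)
  have h2 : x ∈ P ⊔ Submodule.span S {a} := by rw [h1]; trivial
  obtain ⟨y, hy, z, hz, rfl⟩ := Submodule.mem_sup.1 h2
  obtain ⟨k, rfl⟩ := Submodule.mem_span_singleton.1 hz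
  exact ⟨k, by rwa [add_sub_cancel_right]⟩

omit [Finite R] [SMulCommClass S R R] in
/-- the additive group generated by the products is a submodule -/
theorem smul_mem_products (s : S) (x : R)
    (hx : x ∈ AddSubgroup.closure {z : R | ∃ x y, x * y = z}) :
    s • x ∈ AddSubgroup.closure {z : R | ∃ x y, x * y = z} := by
  induction hx using AddSubgroup.closure_induction with
  | mem z hz =>
    obtain ⟨x, y, rfl⟩ := hz
    exact AddSubgroup.subset_closure ⟨s • x, y, smul_mul_assoc s x y⟩
  | zero => rw [smul_zero]; exact zero_mem _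
  | add x y _ _ hx hy => rw [smul_add]; exact add_mem hx hy
  | neg x _ hx => rw [smul_neg]; exact neg_mem hx

omit [Finite R] in
/-- the kernel of a map onto a matrix ring is a submodule -/
theorem smul_mem_ker {n : ℕ} {F : Type*} [Field F]
    (π : R →ₙ+* Matrix (Fin n) (Fin n) F) (hπ : Function.Surjective π) (s : S) (x : R)
    (hx : π x = 0) : π (s • x) = 0 := by
  obtain ⟨y, hy⟩ := hπ 1
  calc π (s • x) = π (s • x) * π y := by rw [hy, mul_one]
    _ = π (x * (s • y)) := by rw [← map_mul, smul_mul_assoc, mul_smul_comm]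
    _ = 0 := by rw [map_mul, hx, zero_mul]

theorem exists_pair_alg [Nontrivial R] :
    ∃ (M : NonUnitalSubalgebra S R) (a b : R), a ∉ M ∧ b ∉ M ∧
      ∀ x : R, ∃ w ∈ NonUnitalAlgebra.adjoin S {a, b}, x - w ∈ M := by
  by_cases h2 : AddSubgroup.closure {z : R | ∃ x y, x * y = z} = ⊤
  · obtain ⟨n, hn, F, _, _, π, hπ⟩ := exists_onto h2
    obtain ⟨a', b', ha', hb', hgen⟩ := mat_gen' (n := n) (F := F)
    obtain ⟨a, ha⟩ := hπ a'
    obtain ⟨b, hb⟩ := hπ b'
    let M : NonUnitalSubalgebra S R :=
      { carrier := {x | π x = 0}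
        add_mem' := fun {x y} hx hy => by
          change π (x + y) = 0
          rw [map_add, (hx : π x = 0), (hy : π y = 0), add_zero]
        zero_mem' := map_zero π
        smul_mem' := fun s {x} hx => smul_mem_ker S π hπ s x hx
        mul_mem' := fun {x y} hx hy => by
          change π (x * y) = 0
          rw [map_mul, (hx : π x = 0), zero_mul] }
    refine ⟨M, a, b, fun h => ha' ?_, fun h => hb' ?_, fun x => ?_⟩
    · rw [← ha]; exact h
    · rw [← hb]; exact h
    · have h3 : NonUnitalSubring.closure {a', b'} ≤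
          ((NonUnitalAlgebra.adjoin S {a, b}).toNonUnitalSubring).map π := by
        rw [NonUnitalSubring.closure_le]
        rintro y (rfl | rfl)
        · exact ⟨a, NonUnitalAlgebra.subset_adjoin S (by simp), ha⟩
        · exact ⟨b, NonUnitalAlgebra.subset_adjoin S (by simp), hb⟩
      rw [hgen] at h3
      obtain ⟨w, hw, hwx⟩ := h3 (show π x ∈ (⊤ : NonUnitalSubring _) from trivial)
      refine ⟨w, hw, ?_⟩
      change π (x - w) = 0
      rw [map_sub]
      exact sub_eq_zero.2 hwx.symm
  · let N : Submodule S R :=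
      { AddSubgroup.closure {z : R | ∃ x y, x * y = z} with
        smul_mem' := fun s {x} hx => smul_mem_products S s x hx }
    have hN : N ≠ ⊤ := by
      intro h
      apply h2
      rw [AddSubgroup.eq_top_iff']
      intro x
      have : x ∈ N := by rw [h]; trivial
      exact this
    obtain ⟨P, hNP, a, ha, hP⟩ := exists_coatom_mod S N hN
    let M : NonUnitalSubalgebra S R :=
      { P with
        mul_mem' := fun {x y} _ _ => hNP (AddSubgroup.subset_closure ⟨x, y, rfl⟩ :
          x * y ∈ AddSubgroup.closure {z : R | ∃ x y, x * y = z}) }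
    refine ⟨M, a, a, ha, ha, fun x => ?_⟩
    obtain ⟨k, hk⟩ := hP x
    have haa : a ∈ NonUnitalAlgebra.adjoin S {a, a} :=
      NonUnitalAlgebra.subset_adjoin S (by simp)
    exact ⟨k • a, SMulMemClass.smul_mem k haa, hk⟩

/-- **Subalgebras of finite algebras** (associative, not necessarily unital or commutative). -/
theorem subalgebras [Nontrivial R] :
    ∃ x : R, 2 * Nat.card {H : NonUnitalSubalgebra S R // x ∈ H} ≤
      Nat.card (NonUnitalSubalgebra S R) := by
  obtain ⟨M, a, b, ha, hb, h⟩ := exists_pair_alg S (R := R)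
  exact alg_crit S M ha hb h

end nonunital

end Pool.Agent.Y396.Frankl
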