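import Pool.Agent.Y396.Frankl.AlgUnital

/-!
# Final forms for rings
-/

set_option autoImplicit false

namespace Pool.Agent.Y396.Frankl

universe u

/-- non-unital subrings are `ℤ`-subalgebras -/
def subringEquiv (R : Type u) [NonUnitalRing R] : NonUnitalSubring R ≃ NonUnitalSubalgebra ℤ R where
  toFun H :=
    { carrier := {x | x ∈ H}
      add_mem' := fun hx hy => H.add_mem hx hy
      zero_mem' := H.zero_mem
      smul_mem' := fun k {x} hx => zsmul_mem (show x ∈ H from hx) k
      mul_mem' := fun hx hy => H.mul_mem hx hy }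
  invFun H :=
    { carrier := {x | x ∈ H}
      add_mem' := fun hx hy => H.add_mem hx hy
      zero_mem' := H.zero_mem
      neg_mem' := fun {x} hx => neg_mem (show x ∈ H from hx)
      mul_mem' := fun hx hy => H.mul_mem hx hy }
  left_inv _ := rfl
  right_inv _ := rfl

theorem subrings' (R : Type u) [NonUnitalRing R] [Finite R] [Nontrivial R] :
    ∃ x : R, 2 * Nat.card {H : NonUnitalSubring R // x ∈ H} ≤ Nat.card (NonUnitalSubring R) := by
  obtain ⟨x, hx⟩ := subalgebras ℤ (R := R)
  refine ⟨x, ?_⟩
  have h1 : Nat.card (NonUnitalSubring R) = Nat.card (NonUnitalSubalgebra ℤ R) :=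
    Nat.card_congr (subringEquiv R)
  have h2 : Nat.card {H : NonUnitalSubring R // x ∈ H} =
      Nat.card {H : NonUnitalSubalgebra ℤ R // x ∈ H} :=
    Nat.card_congr ((subringEquiv R).subtypeEquiv fun H => Iff.rfl)
  rw [h1, h2]
  exact hx

section family

variable {R : Type u} [NonUnitalRing R] [Fintype R] [DecidableEq R] (A : Finset (Finset R))
  (hA : ∀ X : Finset R, X ∈ A ↔ 0 ∉ X ∧ ∀ a b : R, a ∉ X → b ∉ X → a - b ∉ X ∧ a * b ∉ X)

/-- the family of complements corresponds to the subrings -/
noncomputable def ringFamEquiv : NonUnitalSubring R ≃ {X : Finset R // X ∈ A} := by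
  classical
  exact
  { toFun := fun H => ⟨Finset.univ.filter fun x => x ∉ H, by
      rw [hA]
      refine ⟨?_, ?_⟩
      · simp only [Finset.mem_filter, Finset.mem_univ, true_and, not_not]
        exact H.zero_mem
      · intro a b ha hb
        simp only [Finset.mem_filter, Finset.mem_univ, true_and, not_not] at ha hb ⊢
        exact ⟨H.sub_mem ha hb, H.mul_mem ha hb⟩⟩
    invFun := fun X =>
      have h0 := ((hA X.1).1 X.2).1
      have h1 := ((hA X.1).1 X.2).2
      have hneg : ∀ x : R, x ∉ X.1 → -x ∉ X.1 := fun x hx => by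
        have := (h1 0 x h0 hx).1
        rwa [zero_sub] at this
      { carrier := {x | x ∉ X.1}
        add_mem' := fun {a b} ha hb => by
          have := (h1 a (-b) ha (hneg b hb)).1
          rwa [sub_neg_eq_add] at this
        zero_mem' := h0
        neg_mem' := fun {a} ha => hneg a ha
        mul_mem' := fun {a b} ha hb => (h1 a b ha hb).2 }
    left_inv := fun H => by
      ext x
      change x ∉ Finset.univ.filter (fun x => x ∉ H) ↔ x ∈ H
      simp
    right_inv := fun X => Subtype.ext (Finset.ext fun x => by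
      refine Finset.mem_filter.trans ⟨fun h => ?_, fun h => ⟨Finset.mem_univ _, ?_⟩⟩
      · by_contra hx
        exact h.2 hx
      · exact fun hx => hx h) }

theorem ringFamEquiv_mem (H : NonUnitalSubring R) (x : R) :
    x ∈ (ringFamEquiv A hA H).1 ↔ x ∉ H := by
  classical
  change x ∈ Finset.univ.filter (fun x => x ∉ H) ↔ x ∉ H
  simp

include hA

omit [Fintype R] in
theorem ringFam_union : ∀ X ∈ A, ∀ Y ∈ A, X ∪ Y ∈ A := by
  intro X hX Y hY
  rw [hA] at *
  refine ⟨?_, ?_⟩
  · rw [Finset.mem_union, not_or]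
    exact ⟨hX.1, hY.1⟩
  · intro a b ha hb
    rw [Finset.mem_union, not_or] at *
    have h1 := hX.2 a b ha.1 hb.1
    have h2 := hY.2 a b ha.2 hb.2
    refine ⟨⟨h1.1, h2.1⟩, ?_⟩
    rw [Finset.mem_union, not_or]
    exact ⟨h1.2, h2.2⟩

theorem ringFam_card : Nat.card (NonUnitalSubring R) = A.card := by
  rw [Nat.card_congr (ringFamEquiv A hA)]
  simp

theorem ringFam_card_filter (x : R) :
    Nat.card {H : NonUnitalSubring R // x ∈ H} + (A.filter fun X => x ∈ X).card = A.card := by
  have h1 : Nat.card {H : NonUnitalSubring R // x ∈ H} = (A.filter fun X => x ∉ X).card := by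
    have e1 : {H : NonUnitalSubring R // x ∈ H} ≃ {X : {X : Finset R // X ∈ A} // x ∉ X.1} :=
      (ringFamEquiv A hA).subtypeEquiv fun H => by
        rw [ringFamEquiv_mem, not_not]
    have e2 : {X : {X : Finset R // X ∈ A} // x ∉ X.1} ≃ {X : Finset R // X ∈ A ∧ x ∉ X} :=
      Equiv.subtypeSubtypeEquivSubtypeInter (fun X : Finset R => X ∈ A) (fun X => x ∉ X)
    rw [Nat.card_congr (e1.trans e2), Nat.card_eq_fintype_card, Fintype.card_subtype]
    congr 1
    ext X
    simp
  rw [h1, add_comm]
  exact Finset.card_filter_add_card_filter_not _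

theorem ring_family [Nontrivial R] : (∀ X ∈ A, ∀ Y ∈ A, X ∪ Y ∈ A) ∧ (∃ X ∈ A, X.Nonempty) ∧
    ∃ x : R, A.card ≤ 2 * (A.filter fun X => x ∈ X).card := by
  refine ⟨ringFam_union A hA, ?_, ?_⟩
  · refine ⟨Finset.univ.erase 0, ?_, ?_⟩
    · rw [hA]
      refine ⟨by simp, fun a b ha hb => ?_⟩
      have ha' : a = 0 := by simpa using ha
      have hb' : b = 0 := by simpa using hb
      rw [ha', hb', sub_zero, zero_mul]
      simp
    · obtain ⟨x, hx⟩ := exists_ne (0 : R)
      exact ⟨x, by simp [hx]⟩
  · obtain ⟨x, hx⟩ := subrings' R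
    have h1 := ringFam_card A hA
    have h2 := ringFam_card_filter A hA x
    rw [h1] at hx
    exact ⟨x, by omega⟩

end family

end Pool.Agent.Y396.Frankl
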