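import Pool.Agent.Y396.Frankl.Alg

/-!
# Unital subalgebras of finite unital algebras
-/

set_option autoImplicit false

namespace Pool.Agent.Y396.Frankl

universe u v

variable (S : Type v) [CommRing S]

theorem ualg_crit {R : Type u} [Ring R] [Algebra S R] [Finite R] (M : Subalgebra S R) {a b : R}
    (ha : a ∉ M) (hb : b ∉ M)
    (h : ∀ x : R, ∃ w ∈ Algebra.adjoin S {a, b}, x - w ∈ M) :
    ∃ x : R, 2 * Nat.card {H : Subalgebra S R // x ∈ H} ≤ Nat.card (Subalgebra S R) := by
  have hfin : Finite (Subalgebra S R) :=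
    Finite.of_injective (fun H : Subalgebra S R => (H : Set R)) SetLike.coe_injective
  have key : ∀ H K : Subalgebra S R, a ∈ H → b ∈ H → a ∈ K → b ∈ K → H ⊓ M ≤ K → H ≤ K := by
    intro H K haH hbH haK hbK hHK x hx
    obtain ⟨w, hw, hxw⟩ := h x
    have h1 : w ∈ H := (Algebra.adjoin_le (by
      rintro y (rfl | rfl)
      · exact haH
      · exact hbH)) hw
    have h2 : w ∈ K := (Algebra.adjoin_le (by
      rintro y (rfl | rfl)
      · exact haK
      · exact hbK)) hw
    have h3 : x - w ∈ K := hHK ⟨H.sub_mem hx h1, hxw⟩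
    have h4 := K.add_mem h3 h2
    rwa [sub_add_cancel] at h4
  rcases crit_card (𝓗 := Subalgebra S R) (fun H => a ∈ H) (fun H => b ∈ H)
    (fun H => H ⊓ M) (by
      intro H K haH hbH haK hbK h
      have h' : H ⊓ M = K ⊓ M := h
      exact le_antisymm (key H K haH hbH haK hbK (by rw [h']; exact inf_le_left))
        (key K H haK hbK haH hbH (by rw [← h']; exact inf_le_left))) (by
      intro H _ _
      exact ⟨fun h => ha h.2, fun h => hb h.2⟩) with h | h
  · exact ⟨a, h⟩
  · exact ⟨b, h⟩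

/-- a finite `S`-algebra `Q`, not generated by `1`, all of whose proper quotients are generated by
`1`, is generated by two elements outside the image of `S` -/
theorem agen_of_minimal {Q : Type u} [Ring Q] [Algebra S Q] [Finite Q]
    (h0 : ∃ x : Q, ∀ k : S, x ≠ algebraMap S Q k)
    (hmin : ∀ L : TwoSidedIdeal Q, L ≠ ⊥ → ∀ x : Q, ∃ k : S, x - algebraMap S Q k ∈ L) :
    ∃ a b : Q, (∀ k : S, a ≠ algebraMap S Q k) ∧ (∀ k : S, b ≠ algebraMap S Q k) ∧
      Algebra.adjoin S {a, b} = ⊤ := by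
  classical
  have hnt : Nontrivial Q := by
    obtain ⟨x, hx⟩ := h0
    refine ⟨⟨x, 0, fun h => hx 0 (by rw [h]; simp)⟩⟩
  have hfinT : Finite (TwoSidedIdeal Q) :=
    Finite.of_injective (fun H : TwoSidedIdeal Q => (H : Set Q)) SetLike.coe_injective
  -- a minimal nonzero ideal
  obtain ⟨K, hK0, hKmin⟩ : ∃ K : TwoSidedIdeal Q, K ≠ ⊥ ∧ ∀ L : TwoSidedIdeal Q, L ≠ ⊥ → L ≤ K →
      L = K := by
    obtain ⟨K, hK, hmin'⟩ := Set.exists_min_image {L : TwoSidedIdeal Q | L ≠ ⊥}
      (fun L => (L : Set Q).ncard) (Set.toFinite _) ⟨⊤, top_ne_bot⟩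
    refine ⟨K, hK, fun L hL hLK => ?_⟩
    have h1 := Set.eq_of_subset_of_ncard_le (s := (L : Set Q)) (t := (K : Set Q)) hLK
      (hmin' L hL) (Set.toFinite _)
    exact SetLike.coe_injective h1
  have hKall := hmin K hK0
  -- small ideals
  have hsub : ∀ L : Submodule S Q, (∀ x ∈ L, x ∈ K) → (∀ z ∈ K, ∀ x ∈ L, z * x ∈ L ∧ x * z ∈ L) →
      (∃ x ∈ L, x ≠ 0) → ∀ x ∈ K, x ∈ L := by
    intro L hLK hL hne
    have hideal : ∀ (x y : Q), y ∈ L → x * y ∈ L ∧ y * x ∈ L := by
      intro x y hy
      obtain ⟨k, hk⟩ := hKall x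
      have h1 := hL _ hk y hy
      have h2 : x * y = (x - algebraMap S Q k) * y + k • y := by
        rw [sub_mul, Algebra.smul_def]; abel
      have h3 : y * x = y * (x - algebraMap S Q k) + k • y := by
        rw [mul_sub, Algebra.smul_def, ← Algebra.commutes k y]; abel
      rw [h2, h3]
      exact ⟨L.add_mem h1.1 (L.smul_mem k hy), L.add_mem h1.2 (L.smul_mem k hy)⟩
    let T : TwoSidedIdeal Q := TwoSidedIdeal.mk' (L : Set Q) L.zero_mem
      (fun {x y} hx hy => L.add_mem hx hy) (fun {x} hx => L.neg_mem hx)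
      (fun {x y} hy => (hideal x y hy).1) (fun {x y} hx => (hideal y x hx).2)
    have hT : ∀ x, x ∈ T ↔ x ∈ L := fun x => TwoSidedIdeal.mem_mk' (L : Set Q) _ _ _ _ _ x
    have h4 : T = K := by
      apply hKmin
      · intro h
        obtain ⟨x, hx, hx0⟩ := hne
        have := (hT x).2 hx
        rw [h] at this
        exact hx0 ((TwoSidedIdeal.mem_bot _).1 this)
      · intro x hx
        exact hLK x ((hT x).1 hx)
    intro x hx
    rw [← h4] at hx
    exact (hT x).1 hx
  have hKs : ∀ (s : S) (x : Q), x ∈ K → s • x ∈ K := by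
    intro s x hx
    rw [Algebra.smul_def]
    exact K.mul_mem_left _ _ hx
  -- some element of `K` is outside the image of `S`
  have hKout : ∃ a ∈ K, ∀ k : S, a ≠ algebraMap S Q k := by
    by_contra hno
    push Not at hno
    obtain ⟨x, hx⟩ := h0
    obtain ⟨k, hk⟩ := hKall x
    obtain ⟨l, hl⟩ := hno _ hk
    exact hx (l + k) (by rw [map_add, ← hl]; abel)
  by_cases hprod : ∃ x ∈ K, ∃ y ∈ K, x * y ≠ 0
  swap
  · push Not at hprod
    obtain ⟨a, haK, ha⟩ := hKout
    refine ⟨a, a, ha, ha, ?_⟩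
    have h1 := hsub (Submodule.span S {a})
      (by
        intro x hx
        obtain ⟨k, rfl⟩ := Submodule.mem_span_singleton.1 hx
        exact hKs k a haK)
      (by
        intro z hz x hx
        obtain ⟨k, rfl⟩ := Submodule.mem_span_singleton.1 hx
        rw [mul_smul_comm, smul_mul_assoc, hprod z hz a haK, hprod a haK z hz, smul_zero]
        exact ⟨zero_mem _, zero_mem _⟩)
      ⟨a, Submodule.mem_span_singleton_self a, fun h => ha 0 (by rw [h]; simp)⟩
    rw [eq_top_iff]
    intro x _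
    obtain ⟨k, hk⟩ := hKall x
    obtain ⟨l, hl⟩ := Submodule.mem_span_singleton.1 (h1 _ hk)
    have h2 : x = l • a + algebraMap S Q k := by rw [hl]; abel
    rw [h2]
    exact Subalgebra.add_mem _ (Subalgebra.smul_mem _ (Algebra.subset_adjoin (by simp)) l)
      (Subalgebra.algebraMap_mem _ k)
  · obtain ⟨x₀, hx₀, y₀, hy₀, hxy₀⟩ := hprod
    -- `K` as a non-unital algebra
    let K' : NonUnitalSubalgebra S Q :=
      { carrier := {x | x ∈ K}
        add_mem' := fun {x y} hx hy => K.add_mem hx hy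
        zero_mem' := K.zero_mem
        smul_mem' := fun s {x} hx => hKs s x hx
        mul_mem' := fun {x y} _ hy => K.mul_mem_left x y hy }
    have : Nontrivial K' := ⟨⟨⟨x₀, hx₀⟩, 0, fun h => hxy₀ (by
      have h1 : x₀ = 0 := congrArg Subtype.val h
      rw [h1, zero_mul])⟩⟩
    have h2 : AddSubgroup.closure {z : K' | ∃ x y, x * y = z} = ⊤ := by
      let N : Submodule S K' :=
        { AddSubgroup.closure {z : K' | ∃ x y, x * y = z} with
          smul_mem' := fun s {x} hx => smul_mem_products S s x hx }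
      have hN : ∀ x : K', x ∈ N ↔ x ∈ AddSubgroup.closure {z : K' | ∃ x y, x * y = z} :=
        fun x => Iff.rfl
      have h3 := hsub (N.map (K'.toSubmodule.subtype))
        (by
          rintro x ⟨y, _, rfl⟩
          exact y.2)
        (by
          rintro z hz x ⟨y, hy, rfl⟩
          have h4 : ∀ y : K', (⟨z, hz⟩ : K') * y ∈ N ∧ y * (⟨z, hz⟩ : K') ∈ N :=
            fun y => ⟨(hN _).2 (AddSubgroup.subset_closure ⟨_, _, rfl⟩),
              (hN _).2 (AddSubgroup.subset_closure ⟨_, _, rfl⟩)⟩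
          exact ⟨⟨_, (h4 y).1, rfl⟩, ⟨_, (h4 y).2, rfl⟩⟩)
        ⟨x₀ * y₀, ⟨(⟨x₀, hx₀⟩ : K') * ⟨y₀, hy₀⟩,
          (hN _).2 (AddSubgroup.subset_closure ⟨_, _, rfl⟩), rfl⟩, hxy₀⟩
      rw [AddSubgroup.eq_top_iff']
      intro x
      obtain ⟨y, hy, hyx⟩ := h3 x.1 x.2
      have : y = x := Subtype.ext hyx
      rw [← this]
      exact hy
    obtain ⟨n, hn, F, _, _, π, hπ⟩ := exists_onto h2
    obtain ⟨a', b', ha', hb', hgen⟩ := mat_gen' (n := n) (F := F)
    obtain ⟨a, ha⟩ := hπ a'
    obtain ⟨b, hb⟩ := hπ b'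
    -- `π` is injective
    have hinj : ∀ z : K', π z = 0 → z = 0 := by
      by_contra hno
      push Not at hno
      obtain ⟨z, hz, hz0⟩ := hno
      have h5 := hsub
        { carrier := {x | ∃ y : K', π y = 0 ∧ y.1 = x}
          add_mem' := by
            rintro x y ⟨x', hx', rfl⟩ ⟨y', hy', rfl⟩
            exact ⟨x' + y', by rw [map_add, hx', hy', add_zero], rfl⟩
          zero_mem' := ⟨0, map_zero π, rfl⟩
          smul_mem' := by
            rintro s x ⟨x', hx', rfl⟩
            exact ⟨s • x', smul_mem_ker S π hπ s x' hx', rfl⟩ }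
        (by
          rintro x ⟨y, _, rfl⟩
          exact y.2)
        (by
          rintro z hz x ⟨y, hy, rfl⟩
          exact ⟨⟨⟨z, hz⟩ * y, by rw [map_mul, hy, mul_zero], rfl⟩,
            ⟨y * ⟨z, hz⟩, by rw [map_mul, hy, zero_mul], rfl⟩⟩)
        ⟨z.1, ⟨z, hz, rfl⟩, fun h => hz0 (Subtype.ext h)⟩
      obtain ⟨y, hy, hya⟩ := h5 a.1 a.2
      have h6 : y = a := Subtype.ext hya
      rw [h6, ha] at hy
      exact ha' hy
    have hKgen : ∀ x ∈ K, x ∈ Algebra.adjoin S {a.1, b.1} := by
      have h7 : NonUnitalSubring.closure {a', b'} ≤ (NonUnitalSubring.closure {a, b}).map π := by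
        rw [NonUnitalSubring.closure_le]
        rintro y (rfl | rfl)
        · exact ⟨a, NonUnitalSubring.subset_closure (by simp), ha⟩
        · exact ⟨b, NonUnitalSubring.subset_closure (by simp), hb⟩
      rw [hgen] at h7
      intro x hx
      obtain ⟨w, hw, hwx⟩ := h7 (show π ⟨x, hx⟩ ∈ (⊤ : NonUnitalSubring _) from trivial)
      have h8 : w = ⟨x, hx⟩ := by
        have h9 := hinj (w - ⟨x, hx⟩) (by rw [map_sub, hwx, sub_self])
        exact sub_eq_zero.1 h9
      rw [h8] at hw
      obtain ⟨D, hD⟩ : ∃ D, D = Algebra.adjoin S {a.1, b.1} := ⟨_, rfl⟩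
      rw [← hD]
      let C : NonUnitalSubring K' :=
        { carrier := {y | y.1 ∈ D}
          add_mem' := fun {x y} hx hy => D.add_mem hx hy
          zero_mem' := D.zero_mem
          neg_mem' := fun {x} hx => D.neg_mem hx
          mul_mem' := fun {x y} hx hy => D.mul_mem hx hy }
      have h10 : NonUnitalSubring.closure {a, b} ≤ C := by
        rw [NonUnitalSubring.closure_le]
        rintro y (rfl | rfl)
        · change y.1 ∈ D
          rw [hD]
          exact Algebra.subset_adjoin (by simp)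
        · change y.1 ∈ D
          rw [hD]
          exact Algebra.subset_adjoin (by simp)
      exact h10 hw
    have htop : Algebra.adjoin S {a.1, b.1} = ⊤ := by
      rw [eq_top_iff]
      intro x _
      obtain ⟨k, hk⟩ := hKall x
      have h11 := Subalgebra.add_mem _ (hKgen _ hk)
        (Subalgebra.algebraMap_mem (Algebra.adjoin S {a.1, b.1}) k)
      rwa [sub_add_cancel] at h11
    have hswitch : ∀ (c d : Q) (l : S), c = algebraMap S Q l → Algebra.adjoin S {c, d} = ⊤ →
        Algebra.adjoin S {d, d} = ⊤ := by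
      intro c d l hc h12
      rw [eq_top_iff, ← h12]
      apply Algebra.adjoin_le
      rintro y (rfl | rfl)
      · rw [hc]
        exact Subalgebra.algebraMap_mem _ l
      · exact Algebra.subset_adjoin (by simp)
    by_cases h1 : ∀ k : S, a.1 ≠ algebraMap S Q k
    · by_cases h2 : ∀ k : S, b.1 ≠ algebraMap S Q k
      · exact ⟨a.1, b.1, h1, h2, htop⟩
      · push Not at h2
        obtain ⟨l, hl⟩ := h2
        refine ⟨a.1, a.1, h1, h1, hswitch b.1 a.1 l hl ?_⟩
        rwa [Set.pair_comm]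
    · push Not at h1
      obtain ⟨l, hl⟩ := h1
      have h13 := hswitch a.1 b.1 l hl htop
      by_cases h2 : ∀ k : S, b.1 ≠ algebraMap S Q k
      · exact ⟨b.1, b.1, h2, h2, h13⟩
      · exfalso
        push Not at h2
        obtain ⟨l', hl'⟩ := h2
        obtain ⟨x, hx⟩ := h0
        have h14 : Algebra.adjoin S {b.1, b.1} ≤ ⊥ := by
          apply Algebra.adjoin_le
          rintro y (rfl | rfl) <;> exact Algebra.mem_bot.2 ⟨l', hl'.symm⟩
        rw [h13] at h14
        obtain ⟨k, hk⟩ := Algebra.mem_bot.1 (h14 (show x ∈ (⊤ : Subalgebra S Q) from trivial))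
        exact hx k hk.symm

/-- **Unital subalgebras of finite unital algebras.** -/
theorem unital_subalgebras {R : Type u} [Ring R] [Algebra S R] [Finite R]
    (h0 : ∃ x : R, ∀ k : S, x ≠ algebraMap S R k) :
    ∃ x : R, 2 * Nat.card {H : Subalgebra S R // x ∈ H} ≤ Nat.card (Subalgebra S R) := by
  classical
  have hfinT : Finite (TwoSidedIdeal R) :=
    Finite.of_injective (fun H : TwoSidedIdeal R => (H : Set R)) SetLike.coe_injective
  -- an ideal that is maximal such that `R / I` is not generated by `1`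
  obtain ⟨I, hI, hImax⟩ := Set.exists_max_image
    {L : TwoSidedIdeal R | ∃ x : R, ∀ k : S, x - algebraMap S R k ∉ L}
    (fun L => (L : Set R).ncard) (Set.toFinite _) (by
      obtain ⟨x, hx⟩ := h0
      refine ⟨⊥, x, fun k hk => hx k ?_⟩
      exact sub_eq_zero.1 ((TwoSidedIdeal.mem_bot _).1 hk))
  obtain ⟨x₀, hx₀⟩ := hI
  let Q := I.ringCon.Quotient
  let q : R →+* Q := I.ringCon.mk'
  have hq : Function.Surjective q := I.ringCon.mk'_surjective
  have hqker : ∀ x : R, q x = 0 ↔ x ∈ I := by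
    intro x
    rw [TwoSidedIdeal.mem_iff]
    change I.ringCon.mk' x = 0 ↔ _
    rw [← map_zero I.ringCon.mk']
    exact Quotient.eq (r := I.ringCon.toSetoid)
  have hfinQ : Finite Q := Finite.of_surjective q hq
  let _ : Algebra S Q := (q.comp (algebraMap S R)).toAlgebra' (by
    intro c x
    obtain ⟨y, rfl⟩ := hq x
    rw [RingHom.comp_apply, ← map_mul, ← map_mul, Algebra.commutes])
  have hqs : ∀ s : S, algebraMap S Q s = q (algebraMap S R s) := fun s => rfl
  obtain ⟨a', b', ha', hb', hgen⟩ := agen_of_minimal S (Q := Q)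
    ⟨q x₀, fun k hk => hx₀ k (by
      rw [← hqker, map_sub, ← hqs, hk, sub_self])⟩
    (by
      intro L hL x
      obtain ⟨y, rfl⟩ := hq x
      -- the preimage of `L`
      let L' : TwoSidedIdeal R := L.comap q
      have hL' : ∀ z, z ∈ L' ↔ q z ∈ L := fun z => TwoSidedIdeal.mem_comap q
      by_contra hno
      push Not at hno
      have h1 : L' ∈ {L : TwoSidedIdeal R | ∃ x : R, ∀ k : S, x - algebraMap S R k ∉ L} := by
        refine ⟨y, fun k hk => hno k ?_⟩
        rw [hL', map_sub] at hk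
        exact hk
      have h2 : (I : Set R) ⊆ (L' : Set R) := by
        intro z hz
        have h3 : q z = 0 := (hqker z).2 hz
        change z ∈ L'
        rw [hL', h3]
        exact L.zero_mem
      have h4 := Set.eq_of_subset_of_ncard_le h2 (hImax L' h1) (Set.toFinite _)
      apply hL
      rw [eq_bot_iff]
      intro z hz
      obtain ⟨w, rfl⟩ := hq z
      have h5 : w ∈ L' := (hL' w).2 hz
      have h6 : w ∈ I := by
        have h7 : w ∈ (L' : Set R) := h5
        rw [← h4] at h7
        exact h7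
      rw [TwoSidedIdeal.mem_bot]
      exact (hqker w).2 h6)
  obtain ⟨a, rfl⟩ := hq a'
  obtain ⟨b, rfl⟩ := hq b'
  let qa : R →ₐ[S] Q := { q with commutes' := fun s => rfl }
  have hqa : ∀ x, qa x = q x := fun x => rfl
  -- the subalgebra `S + I`
  let M : Subalgebra S R := (⊥ : Subalgebra S Q).comap qa
  have hM : ∀ x : R, x ∈ M ↔ ∃ k : S, q x = algebraMap S Q k := by
    intro x
    constructor
    · intro h
      obtain ⟨k, hk⟩ := Algebra.mem_bot.1 (show qa x ∈ (⊥ : Subalgebra S Q) from h)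
      exact ⟨k, hk.symm⟩
    · rintro ⟨k, hk⟩
      exact (Algebra.mem_bot.2 ⟨k, hk.symm⟩ : qa x ∈ (⊥ : Subalgebra S Q))
  refine ualg_crit S M (a := a) (b := b) (fun h => ?_) (fun h => ?_) (fun x => ?_)
  · obtain ⟨k, hk⟩ := (hM a).1 h
    exact ha' k hk
  · obtain ⟨k, hk⟩ := (hM b).1 h
    exact hb' k hk
  · have h8 : Algebra.adjoin S {q a, q b} ≤ (Algebra.adjoin S {a, b}).map qa := by
      apply Algebra.adjoin_le
      rintro y (rfl | rfl)
      · exact ⟨a, Algebra.subset_adjoin (by simp), rfl⟩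
      · exact ⟨b, Algebra.subset_adjoin (by simp), rfl⟩
    rw [hgen] at h8
    obtain ⟨w, hw, hwx⟩ := h8 (show q x ∈ (⊤ : Subalgebra S Q) from trivial)
    refine ⟨w, hw, (hM _).2 ⟨0, ?_⟩⟩
    have hwx' : q w = q x := hwx
    rw [map_sub, hwx', sub_self, map_zero]

end Pool.Agent.Y396.Frankl
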