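import Pool.Agent.Y396.Frankl.Semi
import Pool.Agent.Y396.Frankl.Crit

/-!
# Two idempotents of the maximal J-class that are neither R- nor L-related
-/

set_option autoImplicit false

namespace Pool.Agent.Y396.Frankl

variable {S : Type*} [Semigroup S] [Finite S] {c : S} (hc : IsMax' c)

include hc

theorem PR {e a b : S} (h : e * (a * b) = a * b) (hab : Below c (a * b)) : e * a = a := by
  obtain ⟨w, hw⟩ := rstab hc (top_left hab) hab
  apply WithOne.coe_injective
  rw [WithOne.coe_mul]
  calc (e : WithOne S) * a = e * (a * b * w) := by rw [← hw]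
    _ = ((e * (a * b) : S) : WithOne S) * w := by
      rw [WithOne.coe_mul, WithOne.coe_mul]; simp only [mul_assoc]
    _ = a * b * w := by rw [h, WithOne.coe_mul]
    _ = a := hw.symm

theorem PL {e a b : S} (h : (a * b) * e = a * b) (hab : Below c (a * b)) : b * e = b := by
  obtain ⟨w, hw⟩ := lstab hc (top_right hab) hab
  apply WithOne.coe_injective
  rw [WithOne.coe_mul]
  calc (b : WithOne S) * e = (w * (a * b)) * e := by rw [← hw]
    _ = w * (((a * b) * e : S) : WithOne S) := by
      rw [WithOne.coe_mul, WithOne.coe_mul]; simp only [mul_assoc]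
    _ = w * (a * b) := by rw [h, WithOne.coe_mul]
    _ = b := hw.symm

/-- the elements that are neither R- nor L-related to the idempotent `e` of the maximal J-class -/
def offCross {e : S} (_he : Below c e) : Subsemigroup S where
  carrier := {s | ¬ (e * s = s ∧ Below c s) ∧ ¬ (s * e = s ∧ Below c s)}
  mul_mem' := by
    rintro a b ⟨ha, _⟩ ⟨_, hb⟩
    refine ⟨fun h => ha ⟨PR hc h.1 h.2, top_left h.2⟩, fun h => hb ⟨PL hc h.1 h.2, top_right h.2⟩⟩

theorem recover {e x y : S} (he : Below c e) (hxy : x * y = e)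
    (hxe : x * e ≠ x) (hey : e * y ≠ y)
    {H K : Subsemigroup S} (hxH : x ∈ H) (hyH : y ∈ H) (hxK : x ∈ K) (hyK : y ∈ K)
    (hHK : H ⊓ offCross hc he ≤ K) : H ≤ K := by
  intro h hh
  by_cases h1 : e * h = h ∧ Below c h
  · by_cases h2 : h * e = h ∧ Below c h
    · have hm : y * h * x ∈ H ⊓ offCross hc he := by
        refine ⟨H.mul_mem (H.mul_mem hyH hh) hxH, fun h' => hey ?_, fun h' => hxe ?_⟩
        · rw [mul_assoc] at h'
          exact PR hc h'.1 h'.2
        · exact PL hc h'.1 h'.2
      have h3 := K.mul_mem (K.mul_mem hxK (hHK hm)) hyK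
      have h4 : x * (y * h * x) * y = h := by
        calc x * (y * h * x) * y = (x * y) * h * (x * y) := by simp only [mul_assoc]
          _ = h := by rw [hxy, h1.1, h2.1]
      rwa [h4] at h3
    · have hm : y * h ∈ H ⊓ offCross hc he := by
        refine ⟨H.mul_mem hyH hh, fun h' => hey ?_, fun h' => h2 ⟨?_, h1.2⟩⟩
        · exact PR hc h'.1 h'.2
        · exact PL hc h'.1 h'.2
      have h3 := K.mul_mem hxK (hHK hm)
      rwa [← mul_assoc, hxy, h1.1] at h3
  · by_cases h2 : h * e = h ∧ Below c h
    · have hm : h * x ∈ H ⊓ offCross hc he := by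
        refine ⟨H.mul_mem hh hxH, fun h' => h1 ⟨?_, h2.2⟩, fun h' => hxe ?_⟩
        · exact PR hc h'.1 h'.2
        · exact PL hc h'.1 h'.2
      have h3 := K.mul_mem (hHK hm) hyK
      rwa [mul_assoc, hxy, h2.1] at h3
    · exact hHK ⟨hh, h1, h2⟩

theorem caseC {e f : S} (hee : e * e = e) (he : Below c e) (hff : f * f = f) (hf : Below c f)
    (h1 : f * e ≠ f) (h2 : e * f ≠ f) :
    ∃ x : S, 2 * Nat.card {H : Subsemigroup S // x ∈ H} < Nat.card (Subsemigroup S) := by
  obtain ⟨u, v, huv⟩ := (hc e he).trans hf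
  obtain ⟨t1, ht1⟩ := coe_mul_right f u
  obtain ⟨t2, ht2⟩ := coe_mul_left f v
  have hff' : (f : WithOne S) * f = f := by rw [← WithOne.coe_mul, hff]
  have h12 : t1 * t2 = e := by
    apply WithOne.coe_injective
    rw [WithOne.coe_mul, ht1, ht2, huv]
    calc u * (f : WithOne S) * (f * v) = u * (f * f) * v := by simp only [mul_assoc]
      _ = u * f * v := by rw [hff']
  have ht1f : t1 * f = t1 := by
    apply WithOne.coe_injective
    rw [WithOne.coe_mul, ht1, mul_assoc, hff']
  have hft2 : f * t2 = t2 := by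
    apply WithOne.coe_injective
    rw [WithOne.coe_mul, ht2, ← mul_assoc, hff']
  obtain ⟨x, hx⟩ : ∃ x, x = e * t1 := ⟨_, rfl⟩
  obtain ⟨y, hy⟩ : ∃ y, y = t2 * e := ⟨_, rfl⟩
  have hxy : x * y = e := by
    calc x * y = e * (t1 * t2) * e := by rw [hx, hy]; simp only [mul_assoc]
      _ = e := by rw [h12, hee, hee]
  have hex : e * x = x := by rw [hx, ← mul_assoc, hee]
  have hye : y * e = y := by rw [hy, mul_assoc, hee]
  obtain ⟨g, hg⟩ : ∃ g, g = y * x := ⟨_, rfl⟩
  have hgf : g * f = g := by
    calc g * f = y * (e * (t1 * f)) := by rw [hg, hx]; simp only [mul_assoc]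
      _ = g := by rw [ht1f, hg, hx]
  have hfg : f * g = g := by
    calc f * g = (f * t2) * e * x := by rw [hg, hy]; simp only [mul_assoc]
      _ = g := by rw [hft2, hg, hy]
  have hgg : g * g = g := by
    calc g * g = y * (x * y) * x := by rw [hg]; simp only [mul_assoc]
      _ = y * (e * x) := by rw [hxy, mul_assoc]
      _ = g := by rw [hex, hg]
  have hgTop : Below c g := by
    have h3 : x * g * y = e := by
      calc x * g * y = (x * y) * (x * y) := by rw [hg]; simp only [mul_assoc]
        _ = e := by rw [hxy, hee]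
    have h4 : Below c (x * g * y) := by rw [h3]; exact he
    exact top_right (top_left h4)
  have hgf' : g = f := by
    have h5 : Below c (f * g) := by rw [hfg]; exact hgTop
    obtain ⟨w, hw⟩ := rstab hc hf h5
    have h6 : g * f = f := by
      apply WithOne.coe_injective
      rw [WithOne.coe_mul]
      calc (g : WithOne S) * f = g * (f * g * w) := by rw [← hw]
        _ = ((g * f * g : S) : WithOne S) * w := by
          simp only [WithOne.coe_mul, mul_assoc]
        _ = ((f * g : S) : WithOne S) * w := by rw [hgf, hgg, hfg]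
        _ = f := by rw [WithOne.coe_mul]; exact hw.symm
    rw [← hgf, h6]
  have hxe : x * e ≠ x := by
    intro h
    apply h1
    rw [← hgf', hg, mul_assoc, h]
  have hey : e * y ≠ y := by
    intro h
    apply h2
    rw [← hgf', hg, ← mul_assoc, h]
  have hxTop : Below c x := by
    have : Below c (x * y) := by rw [hxy]; exact he
    exact top_left this
  have hyTop : Below c y := by
    have : Below c (x * y) := by rw [hxy]; exact he
    exact top_right this
  have key := crit_card_lt (𝓗 := Subsemigroup S) (fun H => x ∈ H) (fun H => y ∈ H)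
    (fun H => H ⊓ offCross hc he) ?_ ?_ ?_
  · rcases key with h | h
    · exact ⟨x, h⟩
    · exact ⟨y, h⟩
  · intro H K hxH hyH hxK hyK h
    apply le_antisymm
    · exact recover hc he hxy hxe hey hxH hyH hxK hyK (by
        have h' : H ⊓ offCross hc he = K ⊓ offCross hc he := h
        rw [h']; exact inf_le_left)
    · exact recover hc he hxy hxe hey hxK hyK hxH hyH (by
        have h' : H ⊓ offCross hc he = K ⊓ offCross hc he := h
        rw [← h']; exact inf_le_left)
  · intro H _ _
    exact ⟨fun h => h.2.1 ⟨hex, hxTop⟩, fun h => h.2.2 ⟨hye, hyTop⟩⟩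
  · refine ⟨⟨{e}, ?_⟩, ?_, ?_, ?_⟩
    · rintro a b ha hb
      rw [Set.mem_singleton_iff] at *
      rw [ha, hb, hee]
    · intro h
      have h' : x = e := h
      exact hxe (by rw [h', hee])
    · intro h
      have h' : y = e := h
      exact hey (by rw [h', hee])
    · intro H _ _ h
      have h3 : e ∈ H ⊓ offCross hc he := by
        rw [h]; exact rfl
      exact h3.2.1 ⟨hee, he⟩

end Pool.Agent.Y396.Frankl
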