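import Pool.Agent.Y396.Frankl.CaseC

/-!
# The maximal J-class is a right group
-/

set_option autoImplicit false

namespace Pool.Agent.Y396.Frankl

universe u

/-- `G` is trivial or has a nontrivial quotient that is generated by two elements (all nontrivial
finite solvable groups; by the classification of the finite simple groups, all finite groups). -/
def TwoGen (G : Type*) [Group G] : Prop :=
  Subsingleton G ∨ ∃ N : Subgroup G, N.Normal ∧ ∃ a b : G, a ∉ N ∧ b ∉ N ∧
    Subgroup.closure (insert a (insert b (N : Set G))) = ⊤

/-- all groups contained in the semigroup `S` satisfy `TwoGen` -/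
def GroupCond (S : Type u) [Semigroup S] : Prop :=
  ∀ (G : Type u) [Group G] (φ : G →ₙ* S), Function.Injective φ → TwoGen G

section

variable {S : Type u} [Semigroup S] {c e : S}

/-- the group of the idempotent `e` when all elements of the maximal J-class are R-related -/
def Grp (c e : S) : Type u := {s : S // Below c s ∧ s * e = s}

variable [Finite S] (hc : IsMax' c) (hee : e * e = e) (he : Below c e)
  (hR : ∀ f : S, f * f = f → Below c f → e * f = f ∧ f * e = e)

include hc hee he hR

theorem left_id {s : S} (hs : Below c s) : e * s = s := by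
  obtain ⟨b, hb1, hb2⟩ := regular hc hee he hs
  have h1 : (s * b) * (s * b) = s * b := by
    calc (s * b) * (s * b) = (s * b * s) * b := by simp only [mul_assoc]
      _ = s * b := by rw [hb1]
  have h2 : Below c (s * b) := by
    have : Below c (s * b * s) := by rw [hb1]; exact hs
    exact top_left this
  have h3 := (hR _ h1 h2).1
  calc e * s = e * (s * b * s) := by rw [hb1]
    _ = (e * (s * b)) * s := by simp only [mul_assoc]
    _ = s := by rw [h3, hb1]

theorem idem_left_id {f t : S} (hff : f * f = f) (hf : Below c f) (ht : Below c t) : f * t = t := by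
  rw [← left_id hc hee he hR ht, ← mul_assoc, (hR f hff hf).2]

theorem top_mul {s t : S} (hs : Below c s) (ht : Below c t) : Below c (s * t) := by
  obtain ⟨b, hb1, hb2⟩ := regular hc hee he hs
  have h1 : (b * s) * (b * s) = b * s := by
    calc (b * s) * (b * s) = b * (s * b * s) := by simp only [mul_assoc]
      _ = b * s := by rw [hb1]
  have h2 : Below c (b * s) := by
    have : Below c (s * (b * s)) := by rw [← mul_assoc, hb1]; exact hs
    exact top_right this
  have h3 := idem_left_id hc hee he hR h1 h2 ht
  have h4 : Below c (b * (s * t)) := by rw [← mul_assoc, h3]; exact ht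
  exact top_right h4

theorem exists_inv {s : S} (hs : Below c s) :
    ∃ t : S, (Below c t ∧ t * e = t) ∧ s * t = e := by
  obtain ⟨b, hb1, hb2⟩ := regular hc hee he hs
  have h1 : (s * b) * (s * b) = s * b := by
    calc (s * b) * (s * b) = (s * b * s) * b := by simp only [mul_assoc]
      _ = s * b := by rw [hb1]
  have h2 : Below c (s * b) := by
    have : Below c (s * b * s) := by rw [hb1]; exact hs
    exact top_left this
  have h3 : s * (b * e) = e := by rw [← mul_assoc]; exact (hR _ h1 h2).2
  refine ⟨b * e, ⟨?_, ?_⟩, h3⟩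
  · have : Below c (s * (b * e)) := by rw [h3]; exact he
    exact top_right this
  · rw [mul_assoc, hee]

/-- the group structure -/
@[reducible] noncomputable def grpGroup : Group (Grp c e) :=
  letI : Mul (Grp c e) := ⟨fun s t => ⟨s.1 * t.1, top_mul hc hee he hR s.2.1 t.2.1, by
    rw [mul_assoc, t.2.2]⟩⟩
  letI : One (Grp c e) := ⟨⟨e, he, hee⟩⟩
  letI : Inv (Grp c e) := ⟨fun s => ⟨(exists_inv hc hee he hR s.2.1).choose,
    (exists_inv hc hee he hR s.2.1).choose_spec.1⟩⟩
  Group.ofRightAxioms (fun a b d => Subtype.ext (mul_assoc a.1 b.1 d.1))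
    (fun a => Subtype.ext a.2.2)
    (fun a => Subtype.ext (exists_inv hc hee he hR a.2.1).choose_spec.2)

end

/-- in a finite group the elements that lie in a subsemigroup form a subgroup -/
theorem closure_le_of_mem {G : Type*} [Group G] [Finite G] {S : Type*} [Semigroup S]
    (φ : G →ₙ* S) (K : Subsemigroup S) {a b : G} (ha : φ a ∈ K) (hb : φ b ∈ K) {w : G}
    (hw : w ∈ Subgroup.closure {a, b}) : φ w ∈ K := by
  have hpow : ∀ (g : G), φ g ∈ K → ∀ n : ℕ, φ (g ^ (n + 1)) ∈ K := by
    intro g hg n
    induction n with
    | zero => simpa using hg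
    | succ n ih =>
      rw [pow_succ, map_mul]
      exact K.mul_mem ih hg
  have hone : φ 1 ∈ K := by
    have h1 := hpow a ha (orderOf a - 1)
    rwa [Nat.sub_add_cancel (orderOf_pos a), pow_orderOf_eq_one] at h1
  have hinv : ∀ g, φ g ∈ K → φ g⁻¹ ∈ K := by
    intro g hg
    have h1 := hpow g hg (2 * orderOf g - 1 - 1)
    have hpos := orderOf_pos g
    have h2 : 2 * orderOf g - 1 - 1 + 1 = 2 * orderOf g - 1 := by omega
    rw [h2] at h1
    have h3 : g ^ (2 * orderOf g - 1) = g⁻¹ := by
      apply mul_right_cancel (b := g)
      rw [← pow_succ, Nat.sub_add_cancel (by omega), mul_comm 2, pow_mul, pow_orderOf_eq_one,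
        one_pow, inv_mul_cancel]
    rwa [h3] at h1
  let L : Subgroup G :=
    { carrier := {g | φ g ∈ K}
      mul_mem' := fun {x y} hx hy => by
        change φ (x * y) ∈ K
        rw [map_mul]
        exact K.mul_mem hx hy
      one_mem' := hone
      inv_mem' := fun {x} hx => hinv x hx }
  have h1 : Subgroup.closure {a, b} ≤ L := by
    rw [Subgroup.closure_le]
    rintro x (rfl | rfl)
    · exact ha
    · exact hb
  exact h1 hw

theorem caseR {S : Type u} [Semigroup S] [Finite S] {c e : S} (hc : IsMax' c)
    (hee : e * e = e) (he : Below c e)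
    (hR : ∀ f : S, f * f = f → Below c f → e * f = f ∧ f * e = e) (hG : GroupCond S) :
    (∃ x : S, 2 * Nat.card {H : Subsemigroup S // x ∈ H} < Nat.card (Subsemigroup S)) ∨
    ∃ x : S, ∀ a b : S, a ≠ x → b ≠ x → a * b ≠ x := by
  let _ := grpGroup hc hee he hR
  let φ : Grp c e →ₙ* S := ⟨fun g => g.1, fun a b => rfl⟩
  have hφ : Function.Injective φ := fun a b h => Subtype.ext h
  have : Finite (Grp c e) := inferInstanceAs (Finite {s : S // Below c s ∧ s * e = s})
  have hone : φ 1 = e := rfl
  obtain ⟨mk, hmk⟩ : ∃ mk : (s : S) → Below c s → Grp c e, ∀ s hs, (mk s hs).1 = s * e :=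
    ⟨fun s hs => ⟨s * e, top_mul hc hee he hR hs he, by rw [mul_assoc, hee]⟩, fun s hs => rfl⟩
  have hmul : ∀ x y : Grp c e, (x * y).1 = x.1 * y.1 := fun x y => rfl
  rcases hG (Grp c e) φ hφ with hsub | ⟨N, hN, a, b, ha, hb, hab⟩
  · right
    refine ⟨e, fun s t _ hte hst => hte ?_⟩
    have hsTop : Below c s := top_left (b := t) (by rw [hst]; exact he)
    have htTop : Below c t := top_right (a := s) (by rw [hst]; exact he)
    -- `s e = e`
    have h1 : s * e = e := by
      have h2 : mk s hsTop = 1 := hsub.elim _ _
      have h3 := congrArg Subtype.val h2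
      rw [hmk] at h3
      exact h3
    have h3 : s * t = t := by
      rw [← left_id hc hee he hR htTop, ← mul_assoc, h1]
    rw [← hst, h3]
  · left
    -- the subsemigroup `M`
    let M : Subsemigroup S :=
      { carrier := {s | ∀ hs : Below c s, mk s hs ∈ N}
        mul_mem' := by
          intro s t hs ht hst
          have h1 := hs (top_left hst)
          have h2 := ht (top_right hst)
          have h3 := N.mul_mem h1 h2
          have h4 : mk s (top_left hst) * mk t (top_right hst) = mk (s * t) hst := by
            apply Subtype.ext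
            rw [hmul, hmk, hmk, hmk]
            have h5 := left_id hc hee he hR (top_right hst)
            calc s * e * (t * e) = s * (e * t) * e := by simp only [mul_assoc]
              _ = s * t * e := by rw [h5]
          rw [h4] at h3
          exact h3 }
    have hgM : ∀ g : Grp c e, g.1 ∈ M ↔ g ∈ N := by
      intro g
      have h1 : mk g.1 g.2.1 = g := Subtype.ext (by rw [hmk]; exact g.2.2)
      constructor
      · intro h
        have h2 := h g.2.1
        rwa [h1] at h2
      · intro h hs
        rw [h1]
        exact h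
    have key : ∀ H K : Subsemigroup S, a.1 ∈ H → b.1 ∈ H → a.1 ∈ K → b.1 ∈ K →
        H ⊓ M ≤ K → H ≤ K := by
      intro H K haH hbH haK hbK hHK h hh
      by_cases hhT : Below c h
      · have h1 : mk h hhT ∈ Subgroup.closure {a, b} ⊔ N := by
          have h2 : Subgroup.closure (insert a (insert b (N : Set (Grp c e)))) ≤
              Subgroup.closure {a, b} ⊔ N := by
            rw [Subgroup.closure_le]
            rintro x (rfl | rfl | hx)
            · exact Subgroup.mem_sup_left (Subgroup.subset_closure (by simp))
            · exact Subgroup.mem_sup_left (Subgroup.subset_closure (by simp))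
            · exact Subgroup.mem_sup_right hx
          rw [hab] at h2
          exact h2 (Subgroup.mem_top _)
        obtain ⟨w, hw, n, hn, hwn⟩ := Subgroup.mem_sup_of_normal_right.1 h1
        have hwK : φ w ∈ K := closure_le_of_mem φ K haK hbK hw
        have hwH : φ w⁻¹ ∈ H := closure_le_of_mem φ H haH hbH (inv_mem hw)
        have h3 : φ w⁻¹ * h ∈ H := H.mul_mem hwH hh
        have h4 : φ w⁻¹ * h ∈ M := by
          intro hs
          have h5 : mk (φ w⁻¹ * h) hs = w⁻¹ * mk h hhT := by
            apply Subtype.ext
            rw [hmul, hmk, hmk, mul_assoc]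
            rfl
          rw [h5, ← hwn, inv_mul_cancel_left]
          exact hn
        have h6 := K.mul_mem hwK (hHK ⟨h3, h4⟩)
        have h7 : φ w * (φ w⁻¹ * h) = h := by
          rw [← mul_assoc, ← map_mul, mul_inv_cancel, hone]
          exact left_id hc hee he hR hhT
        rwa [h7] at h6
      · exact hHK ⟨hh, fun hs => absurd hs hhT⟩
    have key2 := crit_card_lt (𝓗 := Subsemigroup S) (fun H => a.1 ∈ H) (fun H => b.1 ∈ H)
      (fun H => H ⊓ M) ?_ ?_ ?_
    · rcases key2 with h | h
      · exact ⟨a.1, h⟩
      · exact ⟨b.1, h⟩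
    · intro H K haH hbH haK hbK h
      have h' : H ⊓ M = K ⊓ M := h
      exact le_antisymm (key H K haH hbH haK hbK (by rw [h']; exact inf_le_left))
        (key K H haK hbK haH hbH (by rw [← h']; exact inf_le_left))
    · intro H _ _
      exact ⟨fun h => ha ((hgM a).1 h.2), fun h => hb ((hgM b).1 h.2)⟩
    · refine ⟨⊥, fun h => h, fun h => h, fun H haH hbH h => ?_⟩
      have h1 : φ 1 ∈ H ⊓ M :=
        ⟨closure_le_of_mem φ H haH hbH (one_mem _), (hgM 1).2 (one_mem _)⟩
      have h' : H ⊓ M = ⊥ := h
      rw [h'] at h1
      exact h1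

end Pool.Agent.Y396.Frankl
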