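import Pool.Agent.Y396.Frankl.GroupCase

/-!
# Subsemigroups of a finite semigroup
-/

set_option autoImplicit false

namespace Pool.Agent.Y396.Frankl

universe u

/-- some element lies in strictly less than half of the subsemigroups -/
def Rare (S : Type u) [Semigroup S] : Prop :=
  ∃ x : S, 2 * Nat.card {H : Subsemigroup S // x ∈ H} < Nat.card (Subsemigroup S)

theorem below_iff {S : Type u} [Semigroup S] {a b : S} :
    Below a b ↔ a = b ∨ (∃ u, a = u * b) ∨ (∃ v, a = b * v) ∨ ∃ u v, a = u * b * v := by
  constructor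
  · rintro ⟨u, v, h⟩
    by_cases hu : u = 1
    · by_cases hv : v = 1
      · left
        apply WithOne.coe_injective
        rw [h, hu, hv]; simp
      · obtain ⟨v, rfl⟩ := WithOne.ne_one_iff_exists.1 hv
        right; right; left
        refine ⟨v, WithOne.coe_injective ?_⟩
        rw [h, hu, WithOne.coe_mul]; simp
    · obtain ⟨u, rfl⟩ := WithOne.ne_one_iff_exists.1 hu
      by_cases hv : v = 1
      · right; left
        refine ⟨u, WithOne.coe_injective ?_⟩
        rw [h, hv, WithOne.coe_mul]; simp
      · obtain ⟨v, rfl⟩ := WithOne.ne_one_iff_exists.1 hv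
        right; right; right
        refine ⟨u, v, WithOne.coe_injective ?_⟩
        rw [h, WithOne.coe_mul, WithOne.coe_mul]
  · rintro (rfl | ⟨u, rfl⟩ | ⟨v, rfl⟩ | ⟨u, v, rfl⟩)
    · exact Below.refl _
    · exact ⟨u, 1, by simp⟩
    · exact ⟨1, v, by simp⟩
    · exact ⟨u, v, by simp⟩

open MulOpposite in
theorem below_op {S : Type u} [Semigroup S] {a b : S} : Below (op a) (op b) ↔ Below a b := by
  rw [below_iff, below_iff]
  constructor
  · rintro (h | ⟨u, h⟩ | ⟨v, h⟩ | ⟨u, v, h⟩)
    · exact Or.inl (op_injective h)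
    · exact Or.inr (Or.inr (Or.inl ⟨unop u, by simpa using congrArg unop h⟩))
    · exact Or.inr (Or.inl ⟨unop v, by simpa using congrArg unop h⟩)
    · exact Or.inr (Or.inr (Or.inr ⟨unop v, unop u, by
        simpa [mul_assoc] using congrArg unop h⟩))
  · rintro (h | ⟨u, h⟩ | ⟨v, h⟩ | ⟨u, v, h⟩)
    · exact Or.inl (congrArg op h)
    · exact Or.inr (Or.inr (Or.inl ⟨op u, by rw [h]; simp⟩))
    · exact Or.inr (Or.inl ⟨op v, by rw [h]; simp⟩)
    · exact Or.inr (Or.inr (Or.inr ⟨op v, op u, by rw [h]; simp [mul_assoc]⟩))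

open MulOpposite in
theorem groupCond_op {S : Type u} [Semigroup S] (h : GroupCond S) : GroupCond Sᵐᵒᵖ := by
  intro G _ φ hφ
  refine h G ⟨fun g => unop (φ g⁻¹), fun a b => ?_⟩ ?_
  · rw [mul_inv_rev, map_mul, unop_mul]
  · intro a b hab
    exact inv_injective (hφ (unop_injective hab))

open MulOpposite in
theorem rare_op {S : Type u} [Semigroup S] (h : Rare Sᵐᵒᵖ) : Rare S := by
  obtain ⟨x, hx⟩ := h
  refine ⟨unop x, ?_⟩
  have h1 : Nat.card (Subsemigroup S) = Nat.card (Subsemigroup Sᵐᵒᵖ) :=
    Nat.card_congr Subsemigroup.opEquiv.toEquiv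
  have h2 : Nat.card {H : Subsemigroup S // unop x ∈ H} =
      Nat.card {H : Subsemigroup Sᵐᵒᵖ // x ∈ H} := by
    refine Nat.card_congr (Subsemigroup.opEquiv.toEquiv.subtypeEquiv fun H => ?_)
    exact Iff.rfl
  rw [h1, h2]
  exact hx

section

variable {S : Type u} [Semigroup S] [Finite S] {c : S} (hc : IsMax' c)

include hc

theorem symR {e f : S} (he : Below c e) (hff : f * f = f) (hf : Below c f) (h : e * f = f) :
    f * e = e := by
  obtain ⟨w, hw⟩ := rstab hc (b := f) he (by rw [h]; exact hf)
  apply WithOne.coe_injective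
  have h1 : (e : WithOne S) = f * w := by
    calc (e : WithOne S) = e * f * w := hw
      _ = f * w := by rw [← WithOne.coe_mul, h]
  rw [WithOne.coe_mul, h1, ← mul_assoc, ← WithOne.coe_mul, hff]

theorem symL {e f : S} (he : Below c e) (hff : f * f = f) (hf : Below c f) (h : f * e = f) :
    e * f = e := by
  obtain ⟨w, hw⟩ := lstab hc (a := f) he (by rw [h]; exact hf)
  apply WithOne.coe_injective
  have h1 : (e : WithOne S) = w * f := by
    calc (e : WithOne S) = w * (f * e) := hw
      _ = w * f := by rw [← WithOne.coe_mul, h]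
  rw [WithOne.coe_mul, h1, mul_assoc, ← WithOne.coe_mul, hff]

open MulOpposite in
theorem dichotomy_of_max (hG : GroupCond S) :
    Rare S ∨ ∃ x : S, ∀ a b : S, a ≠ x → b ≠ x → a * b ≠ x := by
  by_cases h0 : ∃ a b, a * b = c
  swap
  · right
    exact ⟨c, fun a b _ _ h => h0 ⟨a, b, h⟩⟩
  obtain ⟨a, b, hab⟩ := h0
  obtain ⟨e0, he0, he0'⟩ := exists_idem hc (a := a) (b := b) (by rw [hab]; exact Below.refl c)
  by_cases hC : ∃ e f : S, e * e = e ∧ Below c e ∧ f * f = f ∧ Below c f ∧ f * e ≠ f ∧ e * f ≠ f
  · obtain ⟨e, f, hee, he, hff, hf, h1, h2⟩ := hC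
    exact Or.inl (caseC hc hee he hff hf h1 h2)
  have hC' : ∀ e f : S, e * e = e → Below c e → f * f = f → Below c f → f * e ≠ f → e * f = f := by
    intro e f hee he hff hf h1
    by_contra h2
    exact hC ⟨e, f, hee, he, hff, hf, h1, h2⟩
  by_cases hR : ∀ e f : S, e * e = e → Below c e → f * f = f → Below c f → e * f = f
  · exact caseR hc he0 he0' (fun f hff hf => ⟨hR e0 f he0 he0' hff hf, hR f e0 hff hf he0 he0'⟩) hG
  · have hL : ∀ e f : S, e * e = e → Below c e → f * f = f → Below c f → f * e = f := by
      by_contra hL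
      push Not at hR hL
      obtain ⟨e1, f1, he1, he1', hf1, hf1', h1⟩ := hR
      obtain ⟨e2, f2, he2, he2', hf2, hf2', h2⟩ := hL
      have h3 : f1 * e1 = f1 := by
        by_contra h
        exact h1 (hC' e1 f1 he1 he1' hf1 hf1' h)
      -- some `g` not L-related to `e1`
      have hg : ∃ g : S, g * g = g ∧ Below c g ∧ g * e1 ≠ g := by
        by_contra hno
        push Not at hno
        have h4 := hno e2 he2 he2'
        have h5 := hno f2 hf2 hf2'
        have h6 := symL hc he1' he2 he2' h4
        apply h2
        calc f2 * e2 = (f2 * e1) * e2 := by rw [h5]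
          _ = f2 * (e1 * e2) := mul_assoc _ _ _
          _ = f2 := by rw [h6, h5]
      obtain ⟨g, hg, hg', hge⟩ := hg
      have h4 := hC' e1 g he1 he1' hg hg' hge
      have h5 : g * f1 ≠ g := by
        intro h
        apply hge
        calc g * e1 = (g * f1) * e1 := by rw [h]
          _ = g * (f1 * e1) := mul_assoc _ _ _
          _ = g := by rw [h3, h]
      have h6 := hC' f1 g hf1 hf1' hg hg' h5
      have h7 := symR hc hf1' hg hg' h6
      apply h1
      calc e1 * f1 = e1 * (g * f1) := by rw [h7]
        _ = (e1 * g) * f1 := (mul_assoc _ _ _).symm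
        _ = f1 := by rw [h4, h7]
    have : Finite Sᵐᵒᵖ := Finite.of_equiv S MulOpposite.opEquiv
    have hc' : IsMax' (op c) := by
      intro a ha
      obtain ⟨a, rfl⟩ := op_surjective a
      exact below_op.2 (hc a (below_op.1 ha))
    rcases caseR (S := Sᵐᵒᵖ) (e := op e0) hc' (by rw [← op_mul, he0]) (below_op.2 he0')
      (by
        intro f hff hf
        obtain ⟨f, rfl⟩ := op_surjective f
        have hff' : f * f = f := op_injective (by rw [op_mul]; exact hff)
        have hf' := below_op.1 hf
        rw [← op_mul, ← op_mul, hL e0 f he0 he0' hff' hf', hL f e0 hff' hf' he0 he0']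
        exact ⟨rfl, rfl⟩) (groupCond_op hG) with h | ⟨x, hx⟩
    · exact Or.inl (rare_op h)
    · right
      refine ⟨unop x, fun a b ha hb hab => ?_⟩
      refine hx (op b) (op a) (fun h => hb ?_) (fun h => ha ?_) ?_
      · rw [← h]; rfl
      · rw [← h]; rfl
      · rw [← op_mul, hab]; rfl

end

/-- all subsets are subsemigroups -/
def AllClosed (S : Type u) [Semigroup S] : Prop := ∀ A : Set S, ∀ a ∈ A, ∀ b ∈ A, a * b ∈ A

theorem allClosed_iff {S : Type u} [Semigroup S] :
    AllClosed S ↔ ∀ a b : S, a * b = a ∨ a * b = b := by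
  constructor
  · intro h a b
    exact h {a, b} a (by simp) b (by simp)
  · intro h A a ha b hb
    rcases h a b with h | h <;> rw [h] <;> assumption

theorem groupCond_sub {S : Type u} [Semigroup S] (T : Subsemigroup S) (h : GroupCond S) :
    GroupCond T := by
  intro G _ φ hφ
  exact h G ((MulMemClass.subtype T).comp φ) (Subtype.val_injective.comp hφ)

theorem step {S : Type u} [Semigroup S] [Finite S] (x : S)
    (hx : ∀ a b : S, a ≠ x → b ≠ x → a * b ≠ x) (T : Subsemigroup S) (hT : ∀ a, a ∈ T ↔ a ≠ x)
    (ih : Rare T ∨ AllClosed T) : Rare S ∨ AllClosed S := by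
  classical
  by_cases hall : ∀ K : Subsemigroup S, x ∉ K →
      ∀ a ∈ insert x (K : Set S), ∀ b ∈ insert x (K : Set S), a * b ∈ insert x (K : Set S)
  swap
  · left
    push Not at hall
    obtain ⟨K, hxK, a, ha, b, hb, hab⟩ := hall
    have key := crit_card_lt (𝓗 := Subsemigroup S) (fun H => x ∈ H) (fun H => x ∈ H)
      (fun H => H ⊓ T) ?_ ?_ ?_
    · rcases key with h | h <;> exact ⟨x, h⟩
    · intro H K hH _ hK _ h
      have h' : H ⊓ T = K ⊓ T := h
      ext y
      by_cases hy : y = x
      · rw [hy]; exact ⟨fun _ => hK, fun _ => hH⟩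
      · constructor
        · intro hyH
          have : y ∈ H ⊓ T := ⟨hyH, (hT y).2 hy⟩
          rw [h'] at this
          exact this.1
        · intro hyK
          have : y ∈ K ⊓ T := ⟨hyK, (hT y).2 hy⟩
          rw [← h'] at this
          exact this.1
    · intro H _ _
      exact ⟨fun h => (hT x).1 h.2 rfl, fun h => (hT x).1 h.2 rfl⟩
    · refine ⟨K, hxK, hxK, fun H hH _ h => ?_⟩
      have h' : H ⊓ T = K := h
      have h2 : ∀ y, y ∈ insert x (K : Set S) → y ∈ H := by
        rintro y (rfl | hy)
        · exact hH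
        · have : y ∈ H ⊓ T := by rw [h']; exact hy
          exact this.1
      have h3 : a * b ∈ H := H.mul_mem (h2 a ha) (h2 b hb)
      apply hab
      by_cases h4 : a * b = x
      · rw [h4]; exact Set.mem_insert _ _
      · right
        rw [← h']
        exact ⟨h3, (hT _).2 h4⟩
  -- now `x` can be added to every subsemigroup
  rcases ih with ⟨t, ht⟩ | hcl
  · left
    refine ⟨t.1, ?_⟩
    -- the bijection
    let g : Subsemigroup T × Bool → Subsemigroup S := fun p =>
      if p.2 then
        { carrier := insert x ((p.1.map (MulMemClass.subtype T) : Subsemigroup S) : Set S)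
          mul_mem' := fun {a b} ha hb => hall (p.1.map (MulMemClass.subtype T)) (by
            rintro ⟨y, _, hy⟩
            exact (hT x).1 (hy ▸ y.2) rfl) a ha b hb }
      else p.1.map (MulMemClass.subtype T)
    have hg_mem : ∀ (p : Subsemigroup T × Bool) (y : T), y.1 ∈ g p ↔ y ∈ p.1 := by
      intro p y
      have h1 : y.1 ∈ p.1.map (MulMemClass.subtype T) ↔ y ∈ p.1 := by
        constructor
        · rintro ⟨z, hz, hzy⟩
          have : z = y := Subtype.ext hzy
          rwa [← this]
        · intro h
          exact ⟨y, h, rfl⟩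
      have hyx : y.1 ≠ x := (hT _).1 y.2
      cases hb : p.2
      · simp only [g, hb]
        exact h1
      · simp only [g, hb, if_true]
        change y.1 = x ∨ y.1 ∈ p.1.map (MulMemClass.subtype T) ↔ _
        rw [h1]
        simp [hyx]
    have hg_x : ∀ (p : Subsemigroup T × Bool), x ∈ g p ↔ p.2 = true := by
      intro p
      cases hb : p.2
      · simp only [g, hb]
        constructor
        · rintro ⟨y, _, hy⟩
          exact absurd rfl ((hT x).1 (hy ▸ y.2))
        · intro h; exact absurd h (by simp)
      · simp only [g, hb, if_true]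
        constructor
        · intro; trivial
        · intro
          exact Set.mem_insert _ _
    have hbij : Function.Bijective g := by
      constructor
      · intro p q hpq
        have h1 : p.1 = q.1 := by
          ext y
          rw [← hg_mem p, ← hg_mem q, hpq]
        have h2 : p.2 = q.2 := by
          rw [Bool.eq_iff_iff, ← hg_x p, ← hg_x q, hpq]
        exact Prod.ext h1 h2
      · intro H
        refine ⟨(H.comap (MulMemClass.subtype T), decide (x ∈ H)), ?_⟩
        ext y
        by_cases hy : y = x
        · rw [hy, hg_x]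
          simp
        · have := hg_mem (H.comap (MulMemClass.subtype T), decide (x ∈ H)) ⟨y, (hT y).2 hy⟩
          rw [this]
          exact Iff.rfl
    have hcard : Nat.card (Subsemigroup S) = Nat.card (Subsemigroup T) * 2 := by
      rw [← Nat.card_congr (Equiv.ofBijective g hbij), Nat.card_prod]
      simp
    have hcard' : Nat.card {H : Subsemigroup S // t.1 ∈ H} =
        Nat.card {K : Subsemigroup T // t ∈ K} * 2 := by
      have e1 : {p : Subsemigroup T × Bool // t ∈ p.1} ≃ {H : Subsemigroup S // t.1 ∈ H} :=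
        (Equiv.ofBijective g hbij).subtypeEquiv fun p => (hg_mem p t).symm
      have e2 : {p : Subsemigroup T × Bool // t ∈ p.1} ≃ {K : Subsemigroup T // t ∈ K} × Bool :=
        Equiv.prodSubtypeFstEquivSubtypeProd (p := fun K : Subsemigroup T => t ∈ K)
      rw [← Nat.card_congr e1, Nat.card_congr e2, Nat.card_prod]
      simp
    rw [hcard, hcard']
    omega
  · right
    intro A a ha b hb
    let K : Subsemigroup S :=
      { carrier := {y | y ∈ A ∧ y ≠ x}
        mul_mem' := by
          rintro y z ⟨hy, hyx⟩ ⟨hz, hzx⟩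
          refine ⟨?_, hx y z hyx hzx⟩
          rcases allClosed_iff.1 hcl ⟨y, (hT y).2 hyx⟩ ⟨z, (hT z).2 hzx⟩ with h | h
          · have h' : y * z = y := congrArg Subtype.val h
            rw [h']; exact hy
          · have h' : y * z = z := congrArg Subtype.val h
            rw [h']; exact hz }
    by_cases hxA : x ∈ A
    · have hmem : ∀ y, y ∈ A → y ∈ insert x (K : Set S) := by
        intro y hy
        by_cases hyx : y = x
        · rw [hyx]; exact Set.mem_insert _ _
        · exact Or.inr ⟨hy, hyx⟩
      have h1 := hall K (fun h => h.2 rfl) a (hmem a ha) b (hmem b hb)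
      rcases h1 with h | h
      · rw [h]; exact hxA
      · exact h.1
    · have hne : ∀ y ∈ A, y ≠ x := fun y hy h => hxA (h ▸ hy)
      exact (K.mul_mem (show a ∈ K from ⟨ha, hne a ha⟩) (show b ∈ K from ⟨hb, hne b hb⟩)).1

theorem main (n : ℕ) : ∀ (S : Type u) [Semigroup S] [Finite S], Nat.card S ≤ n → GroupCond S →
    Rare S ∨ AllClosed S := by
  induction n with
  | zero =>
    intro S _ _ hn _
    right
    have : IsEmpty S := (Nat.card_eq_zero.1 (Nat.le_zero.1 hn)).resolve_right
      (fun h => h.not_finite inferInstance)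
    exact fun A a => isEmptyElim a
  | succ n ih =>
    intro S _ _ hn hG
    rcases isEmpty_or_nonempty S with hS | hS
    · exact Or.inr fun A a => isEmptyElim a
    obtain ⟨c, hc⟩ := exists_max (S := S)
    rcases dichotomy_of_max hc hG with h | ⟨x, hx⟩
    · exact Or.inl h
    let T : Subsemigroup S :=
      { carrier := {a | a ≠ x}
        mul_mem' := fun {a b} ha hb => hx a b ha hb }
    refine step x hx T (fun a => Iff.rfl) (ih T ?_ (groupCond_sub T hG))
    have h1 : Nat.card T < Nat.card S :=
      Finite.card_subtype_lt (p := fun a : S => a ≠ x) (x := x) (fun h => h rfl)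
    omega

end Pool.Agent.Y396.Frankl
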