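import Mathlib

/-!
# Matrix rings over finite fields are generated by two elements as non-unital rings
-/

set_option autoImplicit false

namespace Pool.Agent.Y396.Frankl

open Matrix

variable {n : ℕ} {F : Type*} [Field F]

/-- the cyclic permutation matrix -/
def shiftMat (n : ℕ) (F : Type*) [Field F] : Matrix (Fin (n + 1)) (Fin (n + 1)) F :=
  Matrix.of fun i j => if i = j + 1 then 1 else 0

theorem shift_mul (i j : Fin (n + 1)) (c : F) :
    shiftMat n F * Matrix.single i j c = Matrix.single (i + 1) j c := by
  ext p q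
  rw [Matrix.mul_apply, Finset.sum_eq_single i]
  · simp only [shiftMat, Matrix.of_apply, Matrix.single_apply]
    by_cases hp : p = i + 1
    · subst hp; simp
    · have : ¬ (i + 1 = p) := fun h => hp h.symm
      simp [hp, this]
  · intro k _ hk
    have : ¬ (i = k) := fun h => hk h.symm
    simp [this]
  · intro h; exact absurd (Finset.mem_univ _) h

theorem mul_shift (i j : Fin (n + 1)) (c : F) :
    Matrix.single i (j + 1) c * shiftMat n F = Matrix.single i j c := by
  ext p q
  rw [Matrix.mul_apply, Finset.sum_eq_single (j + 1)]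
  · simp only [shiftMat, Matrix.of_apply, Matrix.single_apply]
    by_cases hq : q = j
    · subst hq; simp
    · have h1 : ¬ (j = q) := fun h => hq h.symm
      have h2 : ¬ (j + 1 = q + 1) := fun h => h1 (add_right_cancel h)
      simp [h1, h2]
  · intro k _ hk
    have : ¬ (j + 1 = k) := fun h => hk h.symm
    simp [this]
  · intro h; exact absurd (Finset.mem_univ _) h

theorem fin_reach {n : ℕ} (P : Fin (n + 1) → Prop) (h0 : P 0) (h1 : ∀ i, P i → P (i + 1)) :
    ∀ i, P i := by
  intro i
  have h2 : ∀ k : ℕ, ∀ hk : k < n + 1, P ⟨k, hk⟩ := by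
    intro k
    induction k with
    | zero => intro _; exact h0
    | succ k ih =>
      intro hk
      have h3 := h1 _ (ih (by omega))
      have h4 : (⟨k, by omega⟩ : Fin (n + 1)) + 1 = ⟨k + 1, hk⟩ := by
        apply Fin.ext
        rw [Fin.val_add_one_of_lt']
        · exact hk
      rwa [h4] at h3
  exact h2 i.1 i.2

theorem fin_reach' {n : ℕ} (P : Fin (n + 1) → Prop) (h0 : P 0) (h1 : ∀ i, P (i + 1) → P i) :
    ∀ i, P i := by
  have h2 : ∀ i, P (-i) := fin_reach (fun i => P (-i)) (by simpa using h0) (by
    intro i hi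
    apply h1
    have : -(i + 1) + 1 = -i := by rw [neg_add, neg_add_cancel_right]
    rw [this]
    exact hi)
  intro i
  have := h2 (-i)
  rwa [neg_neg] at this

theorem mat_gen [Finite F] : ∃ a b : Matrix (Fin (n + 1)) (Fin (n + 1)) F, a ≠ 0 ∧ b ≠ 0 ∧
    NonUnitalSubring.closure {a, b} = ⊤ := by
  classical
  obtain ⟨ω, hω⟩ := IsCyclic.exists_generator (α := Fˣ)
  set a : Matrix (Fin (n + 1)) (Fin (n + 1)) F := Matrix.single 0 0 (ω : F) with ha
  set b := shiftMat n F with hb
  set C := NonUnitalSubring.closure {a, b} with hC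
  have haC : a ∈ C := NonUnitalSubring.subset_closure (by simp)
  have hbC : b ∈ C := NonUnitalSubring.subset_closure (by simp)
  have hpow : ∀ k : ℕ, Matrix.single 0 0 ((ω : F) ^ (k + 1)) ∈ C := by
    intro k
    induction k with
    | zero => simpa using haC
    | succ k ih =>
      have h1 := C.mul_mem ih haC
      rw [ha, Matrix.single_mul_single_same, ← pow_succ] at h1
      exact h1
  have h00 : ∀ c : F, Matrix.single 0 0 c ∈ C := by
    intro c
    by_cases hc : c = 0
    · rw [hc, Matrix.single_zero]
      exact C.zero_mem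
    · obtain ⟨k, hk⟩ := (mem_powers_iff_mem_zpowers.2 (hω (Units.mk0 c hc)) :
        Units.mk0 c hc ∈ Submonoid.powers ω)
      have h1 : (ω : F) ^ k = c := by
        have := congrArg Units.val hk
        simpa using this
      have h2 : (ω : F) ^ (k + orderOf ω) = c := by
        rw [pow_add, ← Units.val_pow_eq_pow_val ω (orderOf ω), pow_orderOf_eq_one]
        simpa using h1
      have h3 := hpow (k + orderOf ω - 1)
      have h4 : k + orderOf ω - 1 + 1 = k + orderOf ω := by
        have := orderOf_pos ω
        omega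
      rwa [h4, h2] at h3
  have hi0 : ∀ (i : Fin (n + 1)) (c : F), Matrix.single i 0 c ∈ C := by
    intro i c
    revert i
    apply fin_reach
    · exact h00 c
    · intro i hi
      have h1 := C.mul_mem hbC hi
      rwa [hb, shift_mul] at h1
  have hij : ∀ (i j : Fin (n + 1)) (c : F), Matrix.single i j c ∈ C := by
    intro i j c
    revert j
    apply fin_reach'
    · exact hi0 i c
    · intro j hj
      have h1 := C.mul_mem hj hbC
      rwa [hb, mul_shift] at h1
  refine ⟨a, b, ?_, ?_, ?_⟩
  · intro h
    have h1 := congrFun (congrFun h 0) 0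
    rw [ha, Matrix.single_apply_same] at h1
    exact ω.ne_zero h1
  · intro h
    have h1 := congrFun (congrFun h (0 + 1)) 0
    simp [hb, shiftMat] at h1
  · rw [eq_top_iff]
    intro m _
    rw [Matrix.matrix_eq_sum_single m]
    exact sum_mem fun i _ => sum_mem fun j _ => hij i j _

theorem mat_gen' {n : ℕ} [NeZero n] {F : Type*} [Field F] [Finite F] :
    ∃ a b : Matrix (Fin n) (Fin n) F, a ≠ 0 ∧ b ≠ 0 ∧
      NonUnitalSubring.closure {a, b} = ⊤ := by
  obtain ⟨k, rfl⟩ := Nat.exists_eq_succ_of_ne_zero (NeZero.ne n)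
  exact mat_gen

end Pool.Agent.Y396.Frankl
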