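import Pool.Agent.Y396.Frankl.MatGen

/-!
# A two-element pair in every finite ring
-/

set_option autoImplicit false

namespace Pool.Agent.Y396.Frankl

universe u

theorem not_le_jac {A : Type*} [Ring A] [Finite A] {R : Type*} [NonUnitalRing R] [Nontrivial R]
    (ι : R →ₙ+* A) (hι : Function.Injective ι)
    (h2 : AddSubgroup.closure {z : R | ∃ x y, x * y = z} = ⊤) : ∃ r, ι r ∉ Ring.jacobson A := by
  by_contra hno
  push Not at hno
  obtain ⟨n, hn⟩ := IsSemiprimaryRing.isNilpotent (R := A)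
  have h3 : ∀ k : ℕ, ∀ r : R, ι r ∈ (Ring.jacobson A) ^ k := by
    intro k
    induction k with
    | zero =>
      intro r
      rw [(Ring.jacobson A).pow_zero, Ideal.one_eq_top]
      exact Submodule.mem_top
    | succ k ih =>
      intro r
      have hr : r ∈ AddSubgroup.closure {z : R | ∃ x y, x * y = z} := by rw [h2]; trivial
      induction hr using AddSubgroup.closure_induction with
      | mem z hz =>
        obtain ⟨x, y, rfl⟩ := hz
        rw [map_mul, (Ring.jacobson A).pow_succ]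
        exact Ideal.mul_mem_mul (ih x) (hno y)
      | zero => rw [map_zero]; exact Submodule.zero_mem _
      | add x y _ _ hx hy => rw [map_add]; exact Submodule.add_mem _ hx hy
      | neg x _ hx => rw [map_neg]; exact Submodule.neg_mem _ hx
  obtain ⟨r, hr⟩ := exists_ne (0 : R)
  have h4 := h3 n r
  rw [hn] at h4
  have h5 : ι r = 0 := h4
  exact hr (hι (by rw [h5, map_zero]))

theorem onto_of_ideal {A : Type u} [Ring A] [Finite A] {R : Type u} [NonUnitalRing R] [Nontrivial R]
    (ι : R →ₙ+* A) (hι : Function.Injective ι)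
    (hid : ∀ (y : A) (r : R), (∃ s : R, ι s = y * ι r) ∧ ∃ s : R, ι s = ι r * y)
    (h2 : AddSubgroup.closure {z : R | ∃ x y, x * y = z} = ⊤) :
    ∃ (n : ℕ) (_ : NeZero n) (F : Type u) (_ : Field F) (_ : Finite F)
      (π : R →ₙ+* Matrix (Fin n) (Fin n) F), Function.Surjective π := by
  classical
  obtain ⟨r₀, hr₀⟩ := not_le_jac ι hι h2
  obtain ⟨n, D, d, hD, hd, ⟨e⟩⟩ :=
    IsSemisimpleRing.exists_ringEquiv_pi_matrix_divisionRing (A ⧸ Ring.jacobson A)
  have h5 : e (Ideal.Quotient.mk _ (ι r₀)) ≠ 0 := by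
    intro h
    apply hr₀
    rw [← Ideal.Quotient.eq_zero_iff_mem]
    exact e.injective (by rw [h, map_zero])
  obtain ⟨i, hi⟩ : ∃ i, e (Ideal.Quotient.mk _ (ι r₀)) i ≠ 0 := by
    by_contra hno
    push Not at hno
    exact h5 (funext hno)
  let ρ : A →+* Matrix (Fin (d i)) (Fin (d i)) (D i) :=
    (Pi.evalRingHom _ i).comp (e.toRingHom.comp (Ideal.Quotient.mk (Ring.jacobson A)))
  have hρ : Function.Surjective ρ := by
    intro x
    obtain ⟨y, hy⟩ := Ideal.Quotient.mk_surjective (e.symm (Pi.single i x))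
    refine ⟨y, ?_⟩
    change e (Ideal.Quotient.mk _ y) i = x
    rw [hy, RingEquiv.apply_symm_apply, Pi.single_eq_same]
  have hρ0 : ρ (ι r₀) ≠ 0 := hi
  have hfinM : Finite (Matrix (Fin (d i)) (Fin (d i)) (D i)) := Finite.of_surjective ρ hρ
  have hdi : NeZero (d i) := hd i
  have hfin : Finite (D i) := Finite.of_injective
    (fun x : D i => (Matrix.single 0 0 x : Matrix (Fin (d i)) (Fin (d i)) (D i)))
    (fun x y h => by simpa using congrFun (congrFun h 0) 0)
  -- the image of `R` is a two-sided ideal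
  have hideal : ∀ (x : Matrix (Fin (d i)) (Fin (d i)) (D i)) (r : R),
      (∃ s : R, ρ (ι s) = x * ρ (ι r)) ∧ (∃ s : R, ρ (ι s) = ρ (ι r) * x) := by
    intro x r
    obtain ⟨y, rfl⟩ := hρ x
    obtain ⟨⟨s, hs⟩, ⟨t, ht⟩⟩ := hid y r
    exact ⟨⟨s, by rw [hs, map_mul]⟩, ⟨t, by rw [ht, map_mul]⟩⟩
  let C : Set (Matrix (Fin (d i)) (Fin (d i)) (D i)) := {x | ∃ r : R, ρ (ι r) = x}
  let T : TwoSidedIdeal (Matrix (Fin (d i)) (Fin (d i)) (D i)) :=
    TwoSidedIdeal.mk' C
      ⟨0, by rw [map_zero, map_zero]⟩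
      (by
        rintro x y ⟨r, rfl⟩ ⟨s, rfl⟩
        exact ⟨r + s, by rw [map_add, map_add]⟩)
      (by
        rintro x ⟨r, rfl⟩
        exact ⟨-r, by rw [map_neg, map_neg]⟩)
      (by
        rintro x y ⟨r, rfl⟩
        exact (hideal x r).1)
      (by
        rintro x y ⟨r, rfl⟩
        exact (hideal y r).2)
  have hTmem : ∀ x, x ∈ T ↔ x ∈ C := fun x => TwoSidedIdeal.mem_mk' C _ _ _ _ _ x
  have hT : T = ⊤ := by
    rcases eq_bot_or_eq_top T with h | h
    · exfalso
      have h6 : ρ (ι r₀) ∈ T := (hTmem _).2 ⟨r₀, rfl⟩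
      rw [h] at h6
      exact hρ0 ((TwoSidedIdeal.mem_bot _).1 h6)
    · exact h
  have hsurj : ∀ x : Matrix (Fin (d i)) (Fin (d i)) (D i), ∃ r : R, ρ (ι r) = x := by
    intro x
    have h6 : x ∈ T := by rw [hT]; trivial
    exact (hTmem x).1 h6
  exact ⟨d i, hdi, D i, littleWedderburn (D i), hfin, (RingHom.toNonUnitalRingHom ρ).comp ι, hsurj⟩

/-- if the additive group generated by the products is everything, the ring maps onto a matrix ring
over a finite field -/
theorem exists_onto {R : Type u} [NonUnitalRing R] [Finite R] [Nontrivial R]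
    (h2 : AddSubgroup.closure {z : R | ∃ x y, x * y = z} = ⊤) :
    ∃ (n : ℕ) (_ : NeZero n) (F : Type u) (_ : Field F) (_ : Finite F)
      (π : R →ₙ+* Matrix (Fin n) (Fin n) F), Function.Surjective π := by
  classical
  obtain ⟨m, hm⟩ : ∃ m, m = AddMonoid.exponent R := ⟨_, rfl⟩
  have hmpos : m ≠ 0 := by
    rw [hm]
    exact AddMonoid.exponent_ne_zero_of_finite
  have : NeZero m := ⟨hmpos⟩
  let _ : Module (ZMod m) R := AddCommGroup.zmodModule (n := m)
    (fun x => by rw [hm]; exact AddMonoid.exponent_nsmul_eq_zero x)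
  have hsm : ∀ (c : ZMod m) (x : R), ∃ k : ℕ, c • x = k • x ∧ ∀ y : R, c • y = k • y := by
    intro c x
    obtain ⟨k, rfl⟩ := ZMod.natCast_zmod_surjective c
    exact ⟨k, Nat.cast_smul_eq_nsmul (ZMod m) k x, fun y => Nat.cast_smul_eq_nsmul (ZMod m) k y⟩
  have : IsScalarTower (ZMod m) R R := ⟨fun c x y => by
    obtain ⟨k, _, hk⟩ := hsm c x
    rw [hk, hk, smul_eq_mul, smul_eq_mul, smul_mul_assoc]⟩
  have : SMulCommClass (ZMod m) R R := ⟨fun c x y => by
    obtain ⟨k, _, hk⟩ := hsm c x
    rw [hk, hk, smul_eq_mul, smul_eq_mul, mul_smul_comm]⟩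
  have : Finite (Unitization (ZMod m) R) :=
    Finite.of_injective (fun x : Unitization (ZMod m) R => (x.fst, x.snd)) (by
      intro x y h
      exact Unitization.ext (congrArg Prod.fst h) (congrArg Prod.snd h))
  let ι : R →ₙ+* Unitization (ZMod m) R :=
    { toFun := fun r => Unitization.inr r
      map_mul' := fun x y => Unitization.inr_mul (ZMod m) x y
      map_zero' := Unitization.inr_zero (ZMod m)
      map_add' := fun x y => Unitization.inr_add (ZMod m) x y }
  have hι : Function.Injective ι := Unitization.inr_injective (R := ZMod m)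
  refine onto_of_ideal ι hι ?_ h2
  intro y r
  constructor
  · refine ⟨y.fst • r + y.snd * r, ?_⟩
    change Unitization.inr _ = y * Unitization.inr r
    apply Unitization.ext <;> simp
  · refine ⟨y.fst • r + r * y.snd, ?_⟩
    change Unitization.inr _ = Unitization.inr r * y
    apply Unitization.ext <;> simp

end Pool.Agent.Y396.Frankl
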