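import Mathlib

/-!
# Finite semigroups: a maximal J-class (elementary facts used for the subsemigroup lattice)
-/

set_option autoImplicit false

namespace Pool.Agent.Y396.Frankl

section monoid

variable {M : Type*} [Monoid M]

theorem iter_eq {a u p : M} (h : a = u * a * p) (n : ℕ) : a = u ^ n * a * p ^ n := by
  induction n with
  | zero => simp
  | succ n ih =>
    calc a = u ^ n * a * p ^ n := ih
      _ = u ^ n * (u * a * p) * p ^ n := by rw [← h]
      _ = u ^ (n + 1) * a * p ^ (n + 1) := by
        rw [pow_succ u, pow_succ' p]; simp only [mul_assoc]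

theorem exists_pow_eq [Finite M] (p : M) : ∃ i k : ℕ, p ^ i = p ^ i * p ^ (k + 1) := by
  obtain ⟨i, j, hij, h⟩ := Finite.exists_ne_map_eq_of_infinite (fun n : ℕ => p ^ n)
  rcases lt_or_gt_of_ne hij with h' | h'
  · obtain ⟨k, rfl⟩ := Nat.exists_eq_add_of_lt h'
    exact ⟨i, k, by rw [← pow_add]; simpa [add_assoc] using h⟩
  · obtain ⟨k, rfl⟩ := Nat.exists_eq_add_of_lt h'
    exact ⟨j, k, by rw [← pow_add]; simpa [add_assoc] using h.symm⟩

theorem stabR [Finite M] {a u p : M} (h : a = u * a * p) : ∃ m : ℕ, a = a * p ^ (m + 1) := by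
  obtain ⟨i, k, hk⟩ := exists_pow_eq p
  refine ⟨k, ?_⟩
  calc a = u ^ i * a * p ^ i := iter_eq h i
    _ = u ^ i * a * (p ^ i * p ^ (k + 1)) := by rw [← hk]
    _ = (u ^ i * a * p ^ i) * p ^ (k + 1) := by simp only [mul_assoc]
    _ = a * p ^ (k + 1) := by rw [← iter_eq h i]

theorem stabL [Finite M] {a u p : M} (h : a = u * a * p) : ∃ m : ℕ, a = u ^ (m + 1) * a := by
  obtain ⟨i, k, hk⟩ := exists_pow_eq u
  have hk' : u ^ i = u ^ (k + 1) * u ^ i := by
    rw [← pow_add, add_comm, pow_add]; exact hk
  refine ⟨k, ?_⟩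
  calc a = u ^ i * a * p ^ i := iter_eq h i
    _ = (u ^ (k + 1) * u ^ i) * a * p ^ i := by rw [← hk']
    _ = u ^ (k + 1) * (u ^ i * a * p ^ i) := by simp only [mul_assoc]
    _ = u ^ (k + 1) * a := by rw [← iter_eq h i]

end monoid

variable {S : Type*} [Semigroup S]

/-- `a` is below `b` in the J-order -/
def Below (a b : S) : Prop := ∃ u v : WithOne S, (a : WithOne S) = u * b * v

theorem Below.refl (a : S) : Below a a := ⟨1, 1, by simp⟩

theorem Below.trans {a b c : S} (h : Below a b) (h' : Below b c) : Below a c := by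
  obtain ⟨u, v, h⟩ := h
  obtain ⟨u', v', h'⟩ := h'
  refine ⟨u * u', v' * v, ?_⟩
  rw [h, h']
  simp only [mul_assoc]

theorem coe_mul_left (s : S) (w : WithOne S) : ∃ t : S, (t : WithOne S) = s * w := by
  by_cases hw : w = 1
  · exact ⟨s, by simp [hw]⟩
  · obtain ⟨w, rfl⟩ := WithOne.ne_one_iff_exists.1 hw
    exact ⟨s * w, by simp⟩

theorem coe_mul_right (s : S) (w : WithOne S) : ∃ t : S, (t : WithOne S) = w * s := by
  by_cases hw : w = 1
  · exact ⟨s, by simp [hw]⟩
  · obtain ⟨w, rfl⟩ := WithOne.ne_one_iff_exists.1 hw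
    exact ⟨w * s, by simp⟩

instance [Finite S] : Finite (WithOne S) := inferInstanceAs (Finite (Option S))

theorem exists_max [Finite S] [Nonempty S] : ∃ c : S, ∀ a : S, Below c a → Below a c := by
  classical
  obtain ⟨c, hc⟩ := Finite.exists_max (fun c : S => Set.ncard {x : S | Below x c})
  refine ⟨c, fun a ha => ?_⟩
  have h1 : {x : S | Below x c} ⊆ {x : S | Below x a} := fun x hx => Below.trans hx ha
  have h2 : {x : S | Below x c} = {x : S | Below x a} :=
    Set.eq_of_subset_of_ncard_le h1 (hc a) (Set.toFinite _)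
  have h3 : a ∈ {x : S | Below x a} := Below.refl a
  rw [← h2] at h3
  exact h3

/-- `c` lies in a maximal J-class -/
def IsMax' (c : S) : Prop := ∀ a : S, Below c a → Below a c

section top

variable {c : S}

theorem top_left {a b : S} (h : Below c (a * b)) : Below c a :=
  h.trans ⟨1, b, by simp⟩

theorem top_right {a b : S} (h : Below c (a * b)) : Below c b :=
  h.trans ⟨a, 1, by simp⟩

variable [Finite S] (hc : IsMax' c)

include hc

theorem rstab {a b : S} (ha : Below c a) (hab : Below c (a * b)) :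
    ∃ w : WithOne S, (a : WithOne S) = a * b * w := by
  obtain ⟨u, v, h⟩ := (hc a ha).trans hab
  have h1 : (a : WithOne S) = u * a * (b * v) := by
    calc (a : WithOne S) = u * ((a * b : S) : WithOne S) * v := h
      _ = u * a * (b * v) := by rw [WithOne.coe_mul]; simp only [mul_assoc]
  obtain ⟨m, hm⟩ := stabR h1
  refine ⟨v * (b * v) ^ m, ?_⟩
  calc (a : WithOne S) = a * (b * v) ^ (m + 1) := hm
    _ = a * b * (v * (b * v) ^ m) := by rw [pow_succ']; simp only [mul_assoc]

theorem lstab {a b : S} (hb : Below c b) (hab : Below c (a * b)) :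
    ∃ w : WithOne S, (b : WithOne S) = w * (a * b) := by
  obtain ⟨u, v, h⟩ := (hc b hb).trans hab
  have h1 : (b : WithOne S) = (u * a) * b * v := by
    calc (b : WithOne S) = u * ((a * b : S) : WithOne S) * v := h
      _ = (u * a) * b * v := by rw [WithOne.coe_mul]; simp only [mul_assoc]
  obtain ⟨m, hm⟩ := stabL h1
  refine ⟨(u * a) ^ m * u, ?_⟩
  calc (b : WithOne S) = (u * a) ^ (m + 1) * b := hm
    _ = (u * a) ^ m * u * (a * b) := by rw [pow_succ]; simp only [mul_assoc]

/-- a product in the maximal J-class gives an idempotent in it -/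
theorem exists_idem {a b : S} (hab : Below c (a * b)) :
    ∃ e : S, e * e = e ∧ Below c e := by
  obtain ⟨w, hw⟩ := rstab hc (top_left hab) hab
  obtain ⟨p, hp⟩ := coe_mul_left b w
  have h1 : a * p = a := by
    apply WithOne.coe_injective
    rw [WithOne.coe_mul, hp, ← mul_assoc]
    exact hw.symm
  have ha := top_left hab
  have h2 : Below c (p * p) := by
    have : Below c (a * (p * p)) := by rw [← mul_assoc, h1, h1]; exact ha
    exact top_right this
  obtain ⟨w1, hw1⟩ := rstab hc (top_left h2) h2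
  obtain ⟨w2, hw2⟩ := lstab hc (top_left h2) h2
  obtain ⟨e, he⟩ := coe_mul_left p w1
  have h3 : (e : WithOne S) = w2 * p := by
    rw [he]
    calc (p : WithOne S) * w1 = (w2 * (p * p)) * w1 := by rw [← hw2]
      _ = w2 * (p * p * w1) := by simp only [mul_assoc]
      _ = w2 * p := by rw [← hw1]
  refine ⟨e, ?_, ?_⟩
  · apply WithOne.coe_injective
    rw [WithOne.coe_mul]
    calc (e : WithOne S) * e = (w2 * p) * (p * w1) := by rw [← h3, he]
      _ = w2 * (p * p * w1) := by simp only [mul_assoc]
      _ = w2 * p := by rw [← hw1]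
      _ = e := h3.symm
  · have h4 : p * e = p := by
      apply WithOne.coe_injective
      rw [WithOne.coe_mul, he, ← mul_assoc]
      exact hw1.symm
    have : Below c (p * e) := by rw [h4]; exact top_left h2
    exact top_right this

/-- every element of a maximal J-class containing an idempotent is regular -/
theorem regular {e : S} (hee : e * e = e) (he : Below c e) {a : S} (ha : Below c a) :
    ∃ b : S, a * b * a = a ∧ b * a * b = b := by
  obtain ⟨x, y, hxy⟩ := (hc e he).trans ha
  -- `e = x a y`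
  obtain ⟨d, hd⟩ := coe_mul_left a y
  have hxd : (e : WithOne S) = x * d := by rw [hd, ← mul_assoc]; exact hxy
  have hdTop : Below c d := he.trans ⟨x, 1, by rw [mul_one]; exact hxd⟩
  -- `a = d w`
  have h1 : ∃ w : WithOne S, (a : WithOne S) = d * w := by
    by_cases hy : y = 1
    · refine ⟨1, ?_⟩
      rw [hd, hy]; simp
    · obtain ⟨y, rfl⟩ := WithOne.ne_one_iff_exists.1 hy
      have hd' : d = a * y := WithOne.coe_injective (by rw [hd, WithOne.coe_mul])
      obtain ⟨w, hw⟩ := rstab hc ha (hd' ▸ hdTop)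
      exact ⟨w, by rw [hd', WithOne.coe_mul]; exact hw⟩
  -- `d e = d`
  have h2 : d * e = d := by
    have h2' : ∃ w : WithOne S, (d : WithOne S) = w * e := by
      by_cases hx : x = 1
      · exact ⟨1, by rw [hxd, hx]; simp⟩
      · obtain ⟨x, rfl⟩ := WithOne.ne_one_iff_exists.1 hx
        have hxd' : e = x * d := WithOne.coe_injective (by rw [hxd, WithOne.coe_mul])
        obtain ⟨w, hw⟩ := lstab hc hdTop (hxd' ▸ he)
        exact ⟨w, by rw [hxd]; exact hw⟩
    obtain ⟨w, hw⟩ := h2'
    apply WithOne.coe_injective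
    rw [WithOne.coe_mul, hw, mul_assoc, ← WithOne.coe_mul, hee]
  obtain ⟨w, hw⟩ := h1
  -- `a = a (y x) a`
  have h3 : (a : WithOne S) = a * (y * x) * a := by
    calc (a : WithOne S) = d * w := hw
      _ = d * e * w := by rw [← WithOne.coe_mul, h2]
      _ = (a * y) * (x * d) * w := by rw [← hxd, hd]
      _ = a * (y * x) * (d * w) := by simp only [mul_assoc]
      _ = a * (y * x) * a := by rw [← hw]
  obtain ⟨b1, hb1⟩ := coe_mul_left a (y * x)
  obtain ⟨b, hb⟩ := coe_mul_right b1 (y * x)
  have hb' : (b : WithOne S) = (y * x) * a * (y * x) := by rw [hb, hb1, ← mul_assoc]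
  refine ⟨b, ?_, ?_⟩
  · apply WithOne.coe_injective
    rw [WithOne.coe_mul, WithOne.coe_mul, hb']
    calc (a : WithOne S) * (y * x * a * (y * x)) * a = (a * (y * x) * a) * (y * x) * a := by
          simp only [mul_assoc]
      _ = a := by rw [← h3, ← h3]
  · apply WithOne.coe_injective
    rw [WithOne.coe_mul, WithOne.coe_mul, hb']
    calc y * x * (a : WithOne S) * (y * x) * a * (y * x * a * (y * x))
        = y * x * ((a * (y * x) * a) * (y * x) * a) * (y * x) := by simp only [mul_assoc]
      _ = y * x * a * (y * x) := by rw [← h3, ← h3]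

end top

end Pool.Agent.Y396.Frankl
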