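import Pool.Agent.Y396.Frankl.AlgFinal

/-!
# Strict inequality for subalgebras of finite algebras
-/

set_option autoImplicit false

namespace Pool.Agent.Y396.Frankl

universe u v

open Matrix

/-- the pair of generators, explicitly -/
theorem mat_gen_explicit {n : ℕ} {F : Type*} [Field F] [Finite F] : ∃ ω : Fˣ,
    NonUnitalSubring.closure {Matrix.single 0 0 (ω : F), shiftMat n F} = ⊤ := by
  classical
  obtain ⟨ω, hω⟩ := IsCyclic.exists_generator (α := Fˣ)
  refine ⟨ω, ?_⟩
  set a : Matrix (Fin (n + 1)) (Fin (n + 1)) F := Matrix.single 0 0 (ω : F) with ha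
  set b := shiftMat n F with hb
  set C := NonUnitalSubring.closure {a, b} with hC
  have haC : a ∈ C := NonUnitalSubring.subset_closure (by simp)
  have hbC : b ∈ C := NonUnitalSubring.subset_closure (by simp)
  have hpow : ∀ k : ℕ, Matrix.single 0 0 ((ω : F) ^ (k + 1)) ∈ C := by
    intro k
    induction k with
    | zero => simpa using haC
    | succ k ih =>
      have h1 := C.mul_mem ih haC
      rw [ha, Matrix.single_mul_single_same, ← pow_succ] at h1
      exact h1
  have h00 : ∀ c : F, Matrix.single 0 0 c ∈ C := by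
    intro c
    by_cases hc : c = 0
    · rw [hc, Matrix.single_zero]
      exact C.zero_mem
    · obtain ⟨k, hk⟩ := (mem_powers_iff_mem_zpowers.2 (hω (Units.mk0 c hc)) :
        Units.mk0 c hc ∈ Submonoid.powers ω)
      have h1 : (ω : F) ^ k = c := by
        have := congrArg Units.val hk
        simpa using this
      have h2 : (ω : F) ^ (k + orderOf ω) = c := by
        rw [pow_add, ← Units.val_pow_eq_pow_val ω (orderOf ω), pow_orderOf_eq_one]
        simpa using h1
      have h3 := hpow (k + orderOf ω - 1)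
      have h4 : k + orderOf ω - 1 + 1 = k + orderOf ω := by
        have := orderOf_pos ω
        omega
      rwa [h4, h2] at h3
  have hi0 : ∀ (i : Fin (n + 1)) (c : F), Matrix.single i 0 c ∈ C := by
    intro i c
    revert i
    apply fin_reach
    · exact h00 c
    · intro i hi
      have h1 := C.mul_mem hbC hi
      rwa [hb, shift_mul] at h1
  have hij : ∀ (i j : Fin (n + 1)) (c : F), Matrix.single i j c ∈ C := by
    intro i j c
    revert j
    apply fin_reach'
    · exact hi0 i c
    · intro j hj
      have h1 := C.mul_mem hj hbC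
      rwa [hb, mul_shift] at h1
  rw [eq_top_iff]
  intro m _
  rw [Matrix.matrix_eq_sum_single m]
  exact sum_mem fun i _ => sum_mem fun j _ => hij i j _

section nonunital

variable (S : Type v) [CommRing S] {R : Type u} [NonUnitalRing R] [Module S R]
  [IsScalarTower S R R] [SMulCommClass S R R] [Finite R]

theorem alg_crit_lt (M : NonUnitalSubalgebra S R) {a b : R}
    (ha : a ∉ M) (hb : b ∉ M)
    (h : ∀ x : R, ∃ w ∈ NonUnitalAlgebra.adjoin S {a, b}, x - w ∈ M)
    (hex : ∃ K : NonUnitalSubalgebra S R, a ∉ K ∧ b ∉ K ∧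
      ∀ H : NonUnitalSubalgebra S R, a ∈ H → b ∈ H → H ⊓ M ≠ K) :
    ∃ x : R, 2 * Nat.card {H : NonUnitalSubalgebra S R // x ∈ H} <
      Nat.card (NonUnitalSubalgebra S R) := by
  have hfin : Finite (NonUnitalSubalgebra S R) :=
    Finite.of_injective (fun H : NonUnitalSubalgebra S R => (H : Set R)) SetLike.coe_injective
  have key : ∀ H K : NonUnitalSubalgebra S R, a ∈ H → b ∈ H → a ∈ K → b ∈ K →
      H ⊓ M ≤ K → H ≤ K := by
    intro H K haH hbH haK hbK hHK x hx
    obtain ⟨w, hw, hxw⟩ := h x
    have h1 : w ∈ H := (NonUnitalAlgebra.adjoin_le (by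
      rintro y (rfl | rfl)
      · exact haH
      · exact hbH)) hw
    have h2 : w ∈ K := (NonUnitalAlgebra.adjoin_le (by
      rintro y (rfl | rfl)
      · exact haK
      · exact hbK)) hw
    have h3 : x - w ∈ K := hHK ⟨sub_mem hx h1, hxw⟩
    have h4 := K.add_mem h3 h2
    rwa [sub_add_cancel] at h4
  rcases crit_card_lt (𝓗 := NonUnitalSubalgebra S R) (fun H => a ∈ H) (fun H => b ∈ H)
    (fun H => H ⊓ M) (by
      intro H K haH hbH haK hbK h
      have h' : H ⊓ M = K ⊓ M := h
      exact le_antisymm (key H K haH hbH haK hbK (by rw [h']; exact inf_le_left))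
        (key K H haK hbK haH hbH (by rw [← h']; exact inf_le_left))) (by
      intro H _ _
      exact ⟨fun h => ha h.2, fun h => hb h.2⟩) hex with h | h
  · exact ⟨a, h⟩
  · exact ⟨b, h⟩

/-- one generator modulo `M` -/
theorem one_gen_lt (M : NonUnitalSubalgebra S R) {a : R} (ha : a ∉ M)
    (h : ∀ x : R, ∃ w ∈ NonUnitalAlgebra.adjoin S {a}, x - w ∈ M)
    (h3 : ∃ K : NonUnitalSubalgebra S R, K ≠ ⊥ ∧ K ≠ ⊤) :
    ∃ x : R, 2 * Nat.card {H : NonUnitalSubalgebra S R // x ∈ H} <
      Nat.card (NonUnitalSubalgebra S R) := by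
  by_cases hA : ∃ K : NonUnitalSubalgebra S R, a ∉ K ∧ ¬ K ≤ M
  · obtain ⟨K, haK, hKM⟩ := hA
    refine alg_crit_lt S M ha ha (by rwa [Set.pair_eq_singleton])
      ⟨K, haK, haK, fun H _ _ hH => hKM ?_⟩
    rw [← hH]; exact inf_le_right
  push Not at hA
  have hA' : ∀ K : NonUnitalSubalgebra S R, ¬ K ≤ M → a ∈ K := fun K hK => by
    by_contra h1; exact hK (hA K h1)
  by_cases hB : ∃ (a₂ : R) (K : NonUnitalSubalgebra S R), a₂ ∉ M ∧ a₂ ∉ K ∧ ¬ K ≤ M
  · obtain ⟨a₂, K, ha₂, haK, hKM⟩ := hB
    have h4 : a ∈ NonUnitalAlgebra.adjoin S {a₂} := hA' _ fun h => ha₂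
      (h (NonUnitalAlgebra.subset_adjoin S (Set.mem_singleton _)))
    have h5 : NonUnitalAlgebra.adjoin S {a} ≤ NonUnitalAlgebra.adjoin S {a₂} :=
      NonUnitalAlgebra.adjoin_le (by rintro y rfl; exact h4)
    refine alg_crit_lt S M ha₂ ha₂ (fun x => ?_)
      ⟨K, haK, haK, fun H _ _ hH => hKM ?_⟩
    · obtain ⟨w, hw, hxw⟩ := h x
      refine ⟨w, ?_, hxw⟩
      rw [Set.pair_eq_singleton]
      exact h5 hw
    · rw [← hH]; exact inf_le_right
  push Not at hB
  have hC : ∀ K : NonUnitalSubalgebra S R, ¬ K ≤ M → K = ⊤ := by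
    intro K hK
    have h6 : ∀ y, y ∉ M → y ∈ K := fun y hy => by
      by_contra h7; exact hK (hB y K hy h7)
    rw [eq_top_iff]
    intro y _
    by_cases hy : y ∈ M
    · have h8 : a + y ∉ M := fun h9 => ha (by
        have := M.sub_mem h9 hy
        rwa [add_sub_cancel_right] at this)
      have h10 := sub_mem (h6 _ h8) (h6 _ ha)
      rwa [add_sub_cancel_left] at h10
    · exact h6 y hy
  have hMbot : M ≠ ⊥ := by
    intro hM
    obtain ⟨K, hK1, hK2⟩ := h3
    exact hK2 (hC K (fun hKM => hK1 (by rw [hM] at hKM; exact le_bot_iff.1 hKM)))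
  refine alg_crit_lt S M ha ha (by rwa [Set.pair_eq_singleton])
    ⟨⊥, fun h => ha (bot_le (a := M) h), fun h => ha (bot_le (a := M) h), fun H haH _ hH => ?_⟩
  have h11 : H = ⊤ := hC H fun hHM => ha (hHM haH)
  rw [h11, top_inf_eq] at hH
  exact hMbot hH

/-- **Strict inequality for subalgebras of finite algebras.** -/
theorem subalgebras_lt (h3 : ∃ K : NonUnitalSubalgebra S R, K ≠ ⊥ ∧ K ≠ ⊤) :
    ∃ x : R, 2 * Nat.card {H : NonUnitalSubalgebra S R // x ∈ H} <
      Nat.card (NonUnitalSubalgebra S R) := by
  have hnt : Nontrivial R := by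
    obtain ⟨K, hK1, hK2⟩ := h3
    obtain ⟨x, hx, hx0⟩ : ∃ x ∈ K, x ≠ 0 := by
      by_contra hno
      push Not at hno
      apply hK1
      rw [eq_bot_iff]
      intro x hx
      rw [hno x hx]
      exact zero_mem _
    exact ⟨⟨x, 0, hx0⟩⟩
  by_cases h2 : AddSubgroup.closure {z : R | ∃ x y, x * y = z} = ⊤
  · obtain ⟨n, hn, F, _, _, π, hπ⟩ := exists_onto h2
    let M : NonUnitalSubalgebra S R :=
      { carrier := {x | π x = 0}
        add_mem' := fun {x y} hx hy => by
          change π (x + y) = 0
          rw [map_add, (hx : π x = 0), (hy : π y = 0), add_zero]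
        zero_mem' := map_zero π
        smul_mem' := fun s {x} hx => smul_mem_ker S π hπ s x hx
        mul_mem' := fun {x y} hx hy => by
          change π (x * y) = 0
          rw [map_mul, (hx : π x = 0), zero_mul] }
    obtain ⟨k, rfl⟩ := Nat.exists_eq_succ_of_ne_zero (NeZero.ne n)
    obtain ⟨ω, hgen⟩ := mat_gen_explicit (n := k) (F := F)
    obtain ⟨a, ha⟩ := hπ (Matrix.single 0 0 (ω : F))
    obtain ⟨b, hb⟩ := hπ (shiftMat k F)
    have ha' : π a ≠ 0 := by
      intro h
      have h1 := congrFun (congrFun h 0) 0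
      rw [ha, Matrix.single_apply_same] at h1
      exact ω.ne_zero h1
    have hb' : π b ≠ 0 := by
      intro h
      have h1 := congrFun (congrFun h (0 + 1)) 0
      rw [hb] at h1
      simp [shiftMat] at h1
    have hgen' : ∀ x : R, ∃ w ∈ NonUnitalAlgebra.adjoin S {a, b}, x - w ∈ M := by
      intro x
      have h3 : NonUnitalSubring.closure {Matrix.single 0 0 (ω : F), shiftMat k F} ≤
          ((NonUnitalAlgebra.adjoin S {a, b}).toNonUnitalSubring).map π := by
        rw [NonUnitalSubring.closure_le]
        rintro y (rfl | rfl)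
        · exact ⟨a, NonUnitalAlgebra.subset_adjoin S (by simp), ha⟩
        · exact ⟨b, NonUnitalAlgebra.subset_adjoin S (by simp), hb⟩
      rw [hgen] at h3
      obtain ⟨w, hw, hwx⟩ := h3 (show π x ∈ (⊤ : NonUnitalSubring _) from trivial)
      refine ⟨w, hw, ?_⟩
      change π (x - w) = 0
      rw [map_sub]
      exact sub_eq_zero.2 hwx.symm
    rcases Nat.eq_zero_or_pos k with hk | hk
    · -- a finite field
      subst hk
      have : Subsingleton (Fin (0 + 1)) := inferInstanceAs (Subsingleton (Fin 1))
      have hb1 : shiftMat 0 F = 1 := by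
        ext i j
        rw [Subsingleton.elim i 0, Subsingleton.elim j 0]
        simp [shiftMat]
      refine one_gen_lt S M (a := a) ha' (fun x => ?_) h3
      -- `1` is a power of the generator
      have h5 : ∃ c ∈ NonUnitalAlgebra.adjoin S {a}, π c = 1 := by
        have h6 : ∀ m : ℕ, ∃ c ∈ NonUnitalAlgebra.adjoin S {a},
            π c = Matrix.single 0 0 ((ω : F) ^ (m + 1)) := by
          intro m
          induction m with
          | zero => exact ⟨a, NonUnitalAlgebra.subset_adjoin S (by simp), by rw [ha]; simp⟩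
          | succ m ih =>
            obtain ⟨c, hc, hc'⟩ := ih
            refine ⟨c * a, mul_mem hc (NonUnitalAlgebra.subset_adjoin S (by simp)), ?_⟩
            rw [map_mul, hc', ha, Matrix.single_mul_single_same, ← pow_succ]
        have h7 : 0 < orderOf ω := orderOf_pos ω
        obtain ⟨c, hc, hc'⟩ := h6 (orderOf ω - 1)
        refine ⟨c, hc, ?_⟩
        rw [hc', show orderOf ω - 1 + 1 = orderOf ω by omega,
          ← Units.val_pow_eq_pow_val, pow_orderOf_eq_one]
        ext i j
        rw [Subsingleton.elim i 0, Subsingleton.elim j 0]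
        simp
      obtain ⟨c, hc, hc1⟩ := h5
      have h3 : NonUnitalSubring.closure {Matrix.single 0 0 (ω : F), shiftMat 0 F} ≤
          ((NonUnitalAlgebra.adjoin S {a}).toNonUnitalSubring).map π := by
        rw [NonUnitalSubring.closure_le]
        rintro y (rfl | rfl)
        · exact ⟨a, NonUnitalAlgebra.subset_adjoin S (by simp), ha⟩
        · exact ⟨c, hc, by rw [hb1]; exact hc1⟩
      rw [hgen] at h3
      obtain ⟨w, hw, hwx⟩ := h3 (show π x ∈ (⊤ : NonUnitalSubring _) from trivial)
      refine ⟨w, hw, ?_⟩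
      change π (x - w) = 0
      rw [map_sub]
      exact sub_eq_zero.2 hwx.symm
    · -- matrices whose first column vanishes
      obtain ⟨y, hy⟩ := hπ 1
      have hsm : ∀ (s : S) (x : R), π (s • x) = π (s • y) * π x := by
        intro s x
        have h4 : π (y * x - x) = 0 := by
          rw [map_sub, map_mul, hy, one_mul, sub_self]
        have h5 := smul_mem_ker S π hπ s _ h4
        rw [smul_sub, map_sub, ← smul_mul_assoc, map_mul, sub_eq_zero] at h5
        exact h5.symm
      let K : NonUnitalSubalgebra S R :=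
        { carrier := {x | ∀ i, π x i 0 = 0}
          add_mem' := fun {x y} hx hy i => by
            rw [map_add, Matrix.add_apply, hx i, hy i, add_zero]
          zero_mem' := fun i => by rw [map_zero]; rfl
          smul_mem' := fun s {x} hx i => by
            rw [hsm, Matrix.mul_apply]
            exact Finset.sum_eq_zero fun j _ => by rw [hx j, mul_zero]
          mul_mem' := fun {x y} _ hy i => by
            rw [map_mul, Matrix.mul_apply]
            exact Finset.sum_eq_zero fun j _ => by rw [hy j, mul_zero] }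
      refine alg_crit_lt S M (a := a) (b := b) ha' hb' hgen' ⟨K, ?_, ?_, ?_⟩
      · intro h
        have h4 := h 0
        rw [ha, Matrix.single_apply_same] at h4
        exact ω.ne_zero h4
      · intro h
        have h4 := h (0 + 1)
        rw [hb] at h4
        simp [shiftMat] at h4
      · intro H _ _ hH
        obtain ⟨c, hc⟩ := hπ (Matrix.single (Fin.last k) (Fin.last k) 1)
        have h4 : c ∈ K := by
          intro i
          rw [hc, Matrix.single_apply_of_col_ne]
          intro h5
          have := congrArg Fin.val h5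
          simp at this
          omega
        rw [← hH] at h4
        have h5 : π c = 0 := h4.2
        rw [hc] at h5
        have h6 := congrFun (congrFun h5 (Fin.last k)) (Fin.last k)
        rw [Matrix.single_apply_same] at h6
        exact one_ne_zero h6
  · let N : Submodule S R :=
      { AddSubgroup.closure {z : R | ∃ x y, x * y = z} with
        smul_mem' := fun s {x} hx => smul_mem_products S s x hx }
    have hN : N ≠ ⊤ := by
      intro h
      apply h2
      rw [AddSubgroup.eq_top_iff']
      intro x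
      have : x ∈ N := by rw [h]; trivial
      exact this
    obtain ⟨P, hNP, a, ha, hP⟩ := exists_coatom_mod S N hN
    let M : NonUnitalSubalgebra S R :=
      { P with
        mul_mem' := fun {x y} _ _ => hNP (AddSubgroup.subset_closure ⟨x, y, rfl⟩ :
          x * y ∈ AddSubgroup.closure {z : R | ∃ x y, x * y = z}) }
    refine one_gen_lt S M (a := a) ha (fun x => ?_) h3
    obtain ⟨k, hk⟩ := hP x
    have haa : a ∈ NonUnitalAlgebra.adjoin S {a} :=
      NonUnitalAlgebra.subset_adjoin S (by simp)
    exact ⟨k • a, SMulMemClass.smul_mem k haa, hk⟩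

end nonunital

end Pool.Agent.Y396.Frankl
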