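import Pool.Agent.Y396.Frankl.StrictAlg

/-!
# Strict inequality for unital subalgebras
-/

set_option autoImplicit false

namespace Pool.Agent.Y396.Frankl

universe u v

open Matrix

variable (S : Type v) [CommRing S]

theorem ualg_crit_lt {R : Type u} [Ring R] [Algebra S R] [Finite R] (M : Subalgebra S R) {a b : R}
    (ha : a ∉ M) (hb : b ∉ M)
    (h : ∀ x : R, ∃ w ∈ Algebra.adjoin S {a, b}, x - w ∈ M)
    (hex : ∃ K : Subalgebra S R, a ∉ K ∧ b ∉ K ∧
      ∀ H : Subalgebra S R, a ∈ H → b ∈ H → H ⊓ M ≠ K) :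
    ∃ x : R, 2 * Nat.card {H : Subalgebra S R // x ∈ H} < Nat.card (Subalgebra S R) := by
  have hfin : Finite (Subalgebra S R) :=
    Finite.of_injective (fun H : Subalgebra S R => (H : Set R)) SetLike.coe_injective
  have key : ∀ H K : Subalgebra S R, a ∈ H → b ∈ H → a ∈ K → b ∈ K → H ⊓ M ≤ K → H ≤ K := by
    intro H K haH hbH haK hbK hHK x hx
    obtain ⟨w, hw, hxw⟩ := h x
    have h1 : w ∈ H := (Algebra.adjoin_le (by
      rintro y (rfl | rfl)
      · exact haH
      · exact hbH)) hw
    have h2 : w ∈ K := (Algebra.adjoin_le (by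
      rintro y (rfl | rfl)
      · exact haK
      · exact hbK)) hw
    have h3 : x - w ∈ K := hHK ⟨H.sub_mem hx h1, hxw⟩
    have h4 := K.add_mem h3 h2
    rwa [sub_add_cancel] at h4
  rcases crit_card_lt (𝓗 := Subalgebra S R) (fun H => a ∈ H) (fun H => b ∈ H)
    (fun H => H ⊓ M) (by
      intro H K haH hbH haK hbK h
      have h' : H ⊓ M = K ⊓ M := h
      exact le_antisymm (key H K haH hbH haK hbK (by rw [h']; exact inf_le_left))
        (key K H haK hbK haH hbH (by rw [← h']; exact inf_le_left))) (by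
      intro H _ _
      exact ⟨fun h => ha h.2, fun h => hb h.2⟩) hex with h | h
  · exact ⟨a, h⟩
  · exact ⟨b, h⟩

/-- one generator modulo `M` -/
theorem uone_gen_lt {R : Type u} [Ring R] [Algebra S R] [Finite R] (M : Subalgebra S R) {a : R}
    (ha : a ∉ M)
    (h : ∀ x : R, ∃ w ∈ Algebra.adjoin S {a}, x - w ∈ M)
    (h3 : ∃ K : Subalgebra S R, K ≠ ⊥ ∧ K ≠ ⊤) :
    ∃ x : R, 2 * Nat.card {H : Subalgebra S R // x ∈ H} < Nat.card (Subalgebra S R) := by
  by_cases hA : ∃ K : Subalgebra S R, a ∉ K ∧ ¬ K ≤ M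
  · obtain ⟨K, haK, hKM⟩ := hA
    refine ualg_crit_lt S M ha ha (by rwa [Set.pair_eq_singleton])
      ⟨K, haK, haK, fun H _ _ hH => hKM ?_⟩
    rw [← hH]; exact inf_le_right
  push Not at hA
  have hA' : ∀ K : Subalgebra S R, ¬ K ≤ M → a ∈ K := fun K hK => by
    by_contra h1; exact hK (hA K h1)
  by_cases hB : ∃ (a₂ : R) (K : Subalgebra S R), a₂ ∉ M ∧ a₂ ∉ K ∧ ¬ K ≤ M
  · obtain ⟨a₂, K, ha₂, haK, hKM⟩ := hB
    have h4 : a ∈ Algebra.adjoin S {a₂} := hA' _ fun h => ha₂
      (h (Algebra.subset_adjoin (Set.mem_singleton _)))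
    have h5 : Algebra.adjoin S {a} ≤ Algebra.adjoin S {a₂} :=
      Algebra.adjoin_le (by rintro y rfl; exact h4)
    refine ualg_crit_lt S M ha₂ ha₂ (fun x => ?_)
      ⟨K, haK, haK, fun H _ _ hH => hKM ?_⟩
    · obtain ⟨w, hw, hxw⟩ := h x
      refine ⟨w, ?_, hxw⟩
      rw [Set.pair_eq_singleton]
      exact h5 hw
    · rw [← hH]; exact inf_le_right
  push Not at hB
  have hC : ∀ K : Subalgebra S R, ¬ K ≤ M → K = ⊤ := by
    intro K hK
    have h6 : ∀ y, y ∉ M → y ∈ K := fun y hy => by
      by_contra h7; exact hK (hB y K hy h7)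
    rw [eq_top_iff]
    intro y _
    by_cases hy : y ∈ M
    · have h8 : a + y ∉ M := fun h9 => ha (by
        have := M.sub_mem h9 hy
        rwa [add_sub_cancel_right] at this)
      have h10 := sub_mem (h6 _ h8) (h6 _ ha)
      rwa [add_sub_cancel_left] at h10
    · exact h6 y hy
  have hMbot : M ≠ ⊥ := by
    intro hM
    obtain ⟨K, hK1, hK2⟩ := h3
    exact hK2 (hC K (fun hKM => hK1 (by rw [hM] at hKM; exact le_bot_iff.1 hKM)))
  refine ualg_crit_lt S M ha ha (by rwa [Set.pair_eq_singleton])
    ⟨⊥, fun h => ha ((bot_le : (⊥ : Subalgebra S R) ≤ M) h),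
      fun h => ha ((bot_le : (⊥ : Subalgebra S R) ≤ M) h), fun H haH _ hH => ?_⟩
  have h11 : H = ⊤ := hC H fun hHM => ha (hHM haH)
  rw [h11, top_inf_eq] at hH
  exact hMbot hH

/-- strong form of `agen_of_minimal` -/
theorem agen_of_minimal' {Q : Type u} [Ring Q] [Algebra S Q] [Finite Q]
    (h0 : ∃ x : Q, ∀ k : S, x ≠ algebraMap S Q k)
    (hmin : ∀ L : TwoSidedIdeal Q, L ≠ ⊥ → ∀ x : Q, ∃ k : S, x - algebraMap S Q k ∈ L) :
    (∃ a : Q, (∀ k : S, a ≠ algebraMap S Q k) ∧ Algebra.adjoin S {a} = ⊤) ∨
    ∃ a b : Q, (∀ k : S, a ≠ algebraMap S Q k) ∧ (∀ k : S, b ≠ algebraMap S Q k) ∧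
      Algebra.adjoin S {a, b} = ⊤ ∧
      ∃ K : Subalgebra S Q, a ∉ K ∧ b ∉ K ∧ ∃ c ∈ K, ∀ k : S, c ≠ algebraMap S Q k := by
  classical
  have hnt : Nontrivial Q := by
    obtain ⟨x, hx⟩ := h0
    refine ⟨⟨x, 0, fun h => hx 0 (by rw [h]; simp)⟩⟩
  have hfinT : Finite (TwoSidedIdeal Q) :=
    Finite.of_injective (fun H : TwoSidedIdeal Q => (H : Set Q)) SetLike.coe_injective
  -- a minimal nonzero ideal
  obtain ⟨K, hK0, hKmin⟩ : ∃ K : TwoSidedIdeal Q, K ≠ ⊥ ∧ ∀ L : TwoSidedIdeal Q, L ≠ ⊥ → L ≤ K →
      L = K := by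
    obtain ⟨K, hK, hmin'⟩ := Set.exists_min_image {L : TwoSidedIdeal Q | L ≠ ⊥}
      (fun L => (L : Set Q).ncard) (Set.toFinite _) ⟨⊤, top_ne_bot⟩
    refine ⟨K, hK, fun L hL hLK => ?_⟩
    have h1 := Set.eq_of_subset_of_ncard_le (s := (L : Set Q)) (t := (K : Set Q)) hLK
      (hmin' L hL) (Set.toFinite _)
    exact SetLike.coe_injective h1
  have hKall := hmin K hK0
  -- small ideals
  have hsub : ∀ L : Submodule S Q, (∀ x ∈ L, x ∈ K) → (∀ z ∈ K, ∀ x ∈ L, z * x ∈ L ∧ x * z ∈ L) →
      (∃ x ∈ L, x ≠ 0) → ∀ x ∈ K, x ∈ L := by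
    intro L hLK hL hne
    have hideal : ∀ (x y : Q), y ∈ L → x * y ∈ L ∧ y * x ∈ L := by
      intro x y hy
      obtain ⟨k, hk⟩ := hKall x
      have h1 := hL _ hk y hy
      have h2 : x * y = (x - algebraMap S Q k) * y + k • y := by
        rw [sub_mul, Algebra.smul_def]; abel
      have h3 : y * x = y * (x - algebraMap S Q k) + k • y := by
        rw [mul_sub, Algebra.smul_def, ← Algebra.commutes k y]; abel
      rw [h2, h3]
      exact ⟨L.add_mem h1.1 (L.smul_mem k hy), L.add_mem h1.2 (L.smul_mem k hy)⟩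
    let T : TwoSidedIdeal Q := TwoSidedIdeal.mk' (L : Set Q) L.zero_mem
      (fun {x y} hx hy => L.add_mem hx hy) (fun {x} hx => L.neg_mem hx)
      (fun {x y} hy => (hideal x y hy).1) (fun {x y} hx => (hideal y x hx).2)
    have hT : ∀ x, x ∈ T ↔ x ∈ L := fun x => TwoSidedIdeal.mem_mk' (L : Set Q) _ _ _ _ _ x
    have h4 : T = K := by
      apply hKmin
      · intro h
        obtain ⟨x, hx, hx0⟩ := hne
        have := (hT x).2 hx
        rw [h] at this
        exact hx0 ((TwoSidedIdeal.mem_bot _).1 this)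
      · intro x hx
        exact hLK x ((hT x).1 hx)
    intro x hx
    rw [← h4] at hx
    exact (hT x).1 hx
  have hKs : ∀ (s : S) (x : Q), x ∈ K → s • x ∈ K := by
    intro s x hx
    rw [Algebra.smul_def]
    exact K.mul_mem_left _ _ hx
  -- some element of `K` is outside the image of `S`
  have hKout : ∃ a ∈ K, ∀ k : S, a ≠ algebraMap S Q k := by
    by_contra hno
    push Not at hno
    obtain ⟨x, hx⟩ := h0
    obtain ⟨k, hk⟩ := hKall x
    obtain ⟨l, hl⟩ := hno _ hk
    exact hx (l + k) (by rw [map_add, ← hl]; abel)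
  by_cases hprod : ∃ x ∈ K, ∃ y ∈ K, x * y ≠ 0
  swap
  · push Not at hprod
    obtain ⟨a, haK, ha⟩ := hKout
    refine Or.inl ⟨a, ha, ?_⟩
    have h1 := hsub (Submodule.span S {a})
      (by
        intro x hx
        obtain ⟨k, rfl⟩ := Submodule.mem_span_singleton.1 hx
        exact hKs k a haK)
      (by
        intro z hz x hx
        obtain ⟨k, rfl⟩ := Submodule.mem_span_singleton.1 hx
        rw [mul_smul_comm, smul_mul_assoc, hprod z hz a haK, hprod a haK z hz, smul_zero]
        exact ⟨zero_mem _, zero_mem _⟩)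
      ⟨a, Submodule.mem_span_singleton_self a, fun h => ha 0 (by rw [h]; simp)⟩
    rw [eq_top_iff]
    intro x _
    obtain ⟨k, hk⟩ := hKall x
    obtain ⟨l, hl⟩ := Submodule.mem_span_singleton.1 (h1 _ hk)
    have h2 : x = l • a + algebraMap S Q k := by rw [hl]; abel
    rw [h2]
    exact Subalgebra.add_mem _ (Subalgebra.smul_mem _ (Algebra.subset_adjoin (by simp)) l)
      (Subalgebra.algebraMap_mem _ k)
  · obtain ⟨x₀, hx₀, y₀, hy₀, hxy₀⟩ := hprod
    -- `K` as a non-unital algebra
    let K' : NonUnitalSubalgebra S Q :=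
      { carrier := {x | x ∈ K}
        add_mem' := fun {x y} hx hy => K.add_mem hx hy
        zero_mem' := K.zero_mem
        smul_mem' := fun s {x} hx => hKs s x hx
        mul_mem' := fun {x y} _ hy => K.mul_mem_left x y hy }
    have : Nontrivial K' := ⟨⟨⟨x₀, hx₀⟩, 0, fun h => hxy₀ (by
      have h1 : x₀ = 0 := congrArg Subtype.val h
      rw [h1, zero_mul])⟩⟩
    have h2 : AddSubgroup.closure {z : K' | ∃ x y, x * y = z} = ⊤ := by
      let N : Submodule S K' :=
        { AddSubgroup.closure {z : K' | ∃ x y, x * y = z} with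
          smul_mem' := fun s {x} hx => smul_mem_products S s x hx }
      have hN : ∀ x : K', x ∈ N ↔ x ∈ AddSubgroup.closure {z : K' | ∃ x y, x * y = z} :=
        fun x => Iff.rfl
      have h3 := hsub (N.map (K'.toSubmodule.subtype))
        (by
          rintro x ⟨y, _, rfl⟩
          exact y.2)
        (by
          rintro z hz x ⟨y, hy, rfl⟩
          have h4 : ∀ y : K', (⟨z, hz⟩ : K') * y ∈ N ∧ y * (⟨z, hz⟩ : K') ∈ N :=
            fun y => ⟨(hN _).2 (AddSubgroup.subset_closure ⟨_, _, rfl⟩),
              (hN _).2 (AddSubgroup.subset_closure ⟨_, _, rfl⟩)⟩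
          exact ⟨⟨_, (h4 y).1, rfl⟩, ⟨_, (h4 y).2, rfl⟩⟩)
        ⟨x₀ * y₀, ⟨(⟨x₀, hx₀⟩ : K') * ⟨y₀, hy₀⟩,
          (hN _).2 (AddSubgroup.subset_closure ⟨_, _, rfl⟩), rfl⟩, hxy₀⟩
      rw [AddSubgroup.eq_top_iff']
      intro x
      obtain ⟨y, hy, hyx⟩ := h3 x.1 x.2
      have : y = x := Subtype.ext hyx
      rw [← this]
      exact hy
    obtain ⟨n, hn, F, _, _, π, hπ⟩ := exists_onto h2
    obtain ⟨k, rfl⟩ := Nat.exists_eq_succ_of_ne_zero (NeZero.ne n)
    obtain ⟨ω, hgen⟩ := mat_gen_explicit (n := k) (F := F)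
    obtain ⟨a', ha'eq⟩ : ∃ a', a' = Matrix.single (0 : Fin (k + 1)) (0 : Fin (k + 1)) (ω : F) :=
      ⟨_, rfl⟩
    obtain ⟨b', hb'eq⟩ : ∃ b', b' = shiftMat k F := ⟨_, rfl⟩
    rw [← ha'eq, ← hb'eq] at hgen
    have ha' : a' ≠ 0 := by
      intro h
      have h1 := congrFun (congrFun h 0) 0
      rw [ha'eq, Matrix.single_apply_same] at h1
      exact ω.ne_zero h1
    obtain ⟨a, ha⟩ := hπ a'
    obtain ⟨b, hb⟩ := hπ b'
    -- `π` is injective
    have hinj : ∀ z : K', π z = 0 → z = 0 := by
      by_contra hno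
      push Not at hno
      obtain ⟨z, hz, hz0⟩ := hno
      have h5 := hsub
        { carrier := {x | ∃ y : K', π y = 0 ∧ y.1 = x}
          add_mem' := by
            rintro x y ⟨x', hx', rfl⟩ ⟨y', hy', rfl⟩
            exact ⟨x' + y', by rw [map_add, hx', hy', add_zero], rfl⟩
          zero_mem' := ⟨0, map_zero π, rfl⟩
          smul_mem' := by
            rintro s x ⟨x', hx', rfl⟩
            exact ⟨s • x', smul_mem_ker S π hπ s x' hx', rfl⟩ }
        (by
          rintro x ⟨y, _, rfl⟩
          exact y.2)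
        (by
          rintro z hz x ⟨y, hy, rfl⟩
          exact ⟨⟨⟨z, hz⟩ * y, by rw [map_mul, hy, mul_zero], rfl⟩,
            ⟨y * ⟨z, hz⟩, by rw [map_mul, hy, zero_mul], rfl⟩⟩)
        ⟨z.1, ⟨z, hz, rfl⟩, fun h => hz0 (Subtype.ext h)⟩
      obtain ⟨y, hy, hya⟩ := h5 a.1 a.2
      have h6 : y = a := Subtype.ext hya
      rw [h6, ha] at hy
      exact ha' hy
    have hKgen : ∀ x ∈ K, x ∈ Algebra.adjoin S {a.1, b.1} := by
      have h7 : NonUnitalSubring.closure {a', b'} ≤ (NonUnitalSubring.closure {a, b}).map π := by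
        rw [NonUnitalSubring.closure_le]
        rintro y (rfl | rfl)
        · exact ⟨a, NonUnitalSubring.subset_closure (by simp), ha⟩
        · exact ⟨b, NonUnitalSubring.subset_closure (by simp), hb⟩
      rw [hgen] at h7
      intro x hx
      obtain ⟨w, hw, hwx⟩ := h7 (show π ⟨x, hx⟩ ∈ (⊤ : NonUnitalSubring _) from trivial)
      have h8 : w = ⟨x, hx⟩ := by
        have h9 := hinj (w - ⟨x, hx⟩) (by rw [map_sub, hwx, sub_self])
        exact sub_eq_zero.1 h9
      rw [h8] at hw
      obtain ⟨D, hD⟩ : ∃ D, D = Algebra.adjoin S {a.1, b.1} := ⟨_, rfl⟩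
      rw [← hD]
      let C : NonUnitalSubring K' :=
        { carrier := {y | y.1 ∈ D}
          add_mem' := fun {x y} hx hy => D.add_mem hx hy
          zero_mem' := D.zero_mem
          neg_mem' := fun {x} hx => D.neg_mem hx
          mul_mem' := fun {x y} hx hy => D.mul_mem hx hy }
      have h10 : NonUnitalSubring.closure {a, b} ≤ C := by
        rw [NonUnitalSubring.closure_le]
        rintro y (rfl | rfl)
        · change y.1 ∈ D
          rw [hD]
          exact Algebra.subset_adjoin (by simp)
        · change y.1 ∈ D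
          rw [hD]
          exact Algebra.subset_adjoin (by simp)
      exact h10 hw
    have htop : Algebra.adjoin S {a.1, b.1} = ⊤ := by
      rw [eq_top_iff]
      intro x _
      obtain ⟨k, hk⟩ := hKall x
      have h11 := Subalgebra.add_mem _ (hKgen _ hk)
        (Subalgebra.algebraMap_mem (Algebra.adjoin S {a.1, b.1}) k)
      rwa [sub_add_cancel] at h11
    rcases Nat.eq_zero_or_pos k with hk | hk
    · left
      subst hk
      have : Subsingleton (Fin (0 + 1)) := inferInstanceAs (Subsingleton (Fin 1))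
      have hb1 : shiftMat 0 F = 1 := by
        ext i j
        rw [Subsingleton.elim i 0, Subsingleton.elim j 0]
        simp [shiftMat]
      have h5 : ∃ c : K', c.1 ∈ Algebra.adjoin S {a.1} ∧ π c = 1 := by
        have h6 : ∀ m : ℕ, ∃ c : K', c.1 ∈ Algebra.adjoin S {a.1} ∧
            π c = Matrix.single 0 0 ((ω : F) ^ (m + 1)) := by
          intro m
          induction m with
          | zero => exact ⟨a, Algebra.subset_adjoin (by simp), by rw [ha, ha'eq]; simp⟩
          | succ m ih =>
            obtain ⟨c, hc, hc'⟩ := ih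
            refine ⟨c * a, Subalgebra.mul_mem _ hc (Algebra.subset_adjoin (by simp)), ?_⟩
            rw [map_mul, hc', ha, ha'eq, Matrix.single_mul_single_same, ← pow_succ]
        have h7 : 0 < orderOf ω := orderOf_pos ω
        obtain ⟨c, hc, hc'⟩ := h6 (orderOf ω - 1)
        refine ⟨c, hc, ?_⟩
        rw [hc', show orderOf ω - 1 + 1 = orderOf ω by omega,
          ← Units.val_pow_eq_pow_val, pow_orderOf_eq_one]
        ext i j
        rw [Subsingleton.elim i 0, Subsingleton.elim j 0]
        simp
      obtain ⟨c, hc, hc1⟩ := h5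
      have hbc : b = c := by
        have h8 := hinj (b - c) (by rw [map_sub, hb, hc1, hb'eq, hb1, sub_self])
        exact sub_eq_zero.1 h8
      have hA : Algebra.adjoin S {a.1} = ⊤ := by
        rw [eq_top_iff, ← htop]
        apply Algebra.adjoin_le
        rintro y (rfl | rfl)
        · exact Algebra.subset_adjoin (by simp)
        · rw [hbc]; exact hc
      refine ⟨a.1, fun l hl => ?_, hA⟩
      obtain ⟨x, hx⟩ := h0
      have h14 : Algebra.adjoin S {a.1} ≤ ⊥ := by
        apply Algebra.adjoin_le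
        rintro y rfl
        exact Algebra.mem_bot.2 ⟨l, hl.symm⟩
      rw [hA] at h14
      obtain ⟨k, hk⟩ := Algebra.mem_bot.1 (h14 (show x ∈ (⊤ : Subalgebra S Q) from trivial))
      exact hx k hk.symm
    · right
      obtain ⟨k, rfl⟩ := Nat.exists_eq_succ_of_ne_zero hk.ne'
      have h01 : (0 : Fin (k.succ + 1)) ≠ 1 := by
        intro h
        have := congrArg Fin.val h
        simp at this
      -- the idempotent
      obtain ⟨e, he⟩ : ∃ e : Matrix (Fin (k.succ + 1)) (Fin (k.succ + 1)) F,
        e = Matrix.single 1 1 1 + Matrix.single 1 0 1 := ⟨_, rfl⟩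
      have hee : e * e = e := by
        rw [he, add_mul, mul_add, mul_add, Matrix.single_mul_single_same,
          Matrix.single_mul_single_same, Matrix.single_mul_single_of_ne _ _ _ _ h01,
          Matrix.single_mul_single_of_ne _ _ _ _ h01, mul_one, add_zero, add_zero]
      obtain ⟨c, hc⟩ := hπ e
      have hcc : c * c = c := by
        have h8 := hinj (c * c - c) (by rw [map_sub, map_mul, hc, hee, sub_self])
        exact sub_eq_zero.1 h8
      have hcc' : c.1 * c.1 = c.1 := congrArg Subtype.val hcc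
      -- central elements of `K`
      have hcen : ∀ (s : S) (z : K'), z.1 = algebraMap S Q s →
          ∃ ζ : F, π z = Matrix.scalar _ ζ := by
        intro s z hz
        have h9 : ∀ X : Matrix (Fin (k.succ + 1)) (Fin (k.succ + 1)) F, Commute X (π z) := by
          intro X
          obtain ⟨x, rfl⟩ := hπ X
          have h10 : x * z = z * x := Subtype.ext (by
            change x.1 * z.1 = z.1 * x.1
            rw [hz, Algebra.commutes])
          change π x * π z = π z * π x
          rw [← map_mul, ← map_mul, h10]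
        obtain ⟨ζ, hζ⟩ := Matrix.mem_range_scalar_iff_commute_single.2 (fun i j _ =>
          h9 (Matrix.single i j 1))
        exact ⟨ζ, hζ.symm⟩
      let K₂ : Subalgebra S Q :=
        { carrier := {x | ∃ (s : S) (l : K'), x = algebraMap S Q s + l.1 ∧ c * l * c = l}
          mul_mem' := by
            rintro x y ⟨s, l, rfl, hl⟩ ⟨t, m, rfl, hm⟩
            have hl' : c.1 * l.1 * c.1 = l.1 := congrArg Subtype.val hl
            have hm' : c.1 * m.1 * c.1 = m.1 := congrArg Subtype.val hm
            have hcl : c.1 * l.1 = l.1 := by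
              rw [← hl', ← mul_assoc, ← mul_assoc, hcc']
            have hmc : m.1 * c.1 = m.1 := by
              rw [← hm', mul_assoc, hcc']
            refine ⟨s * t, s • m + t • l + l * m, ?_, Subtype.ext ?_⟩
            · change _ = _ + (s • m.1 + t • l.1 + l.1 * m.1)
              rw [add_mul, mul_add, mul_add, map_mul, ← Algebra.commutes t l.1,
                Algebra.smul_def, Algebra.smul_def]
              abel
            · change c.1 * (s • m.1 + t • l.1 + l.1 * m.1) * c.1 = s • m.1 + t • l.1 + l.1 * m.1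
              rw [mul_add, mul_add, add_mul, add_mul, mul_smul_comm, mul_smul_comm, smul_mul_assoc,
                smul_mul_assoc, hl', hm', ← mul_assoc, hcl, mul_assoc, hmc]
          add_mem' := by
            rintro x y ⟨s, l, rfl, hl⟩ ⟨t, m, rfl, hm⟩
            refine ⟨s + t, l + m, ?_, ?_⟩
            · change _ = _ + (l.1 + m.1)
              rw [map_add]; abel
            · rw [mul_add, add_mul, hl, hm]
          algebraMap_mem' := fun s => ⟨s, 0, by
            change _ = _ + (0 : Q)
            rw [add_zero], by rw [mul_zero, zero_mul]⟩ }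
      have hent : ∀ l : K', c * l * c = l → (∀ j, π l 0 j = 0) ∧ ∀ i, π l i 0 = π l i 1 := by
        intro l hl
        have h11 : π l = e * (π l * e) := by
          rw [← hc, ← map_mul, ← map_mul, ← mul_assoc, hl]
        constructor
        · intro j
          rw [h11, Matrix.mul_apply]
          refine Finset.sum_eq_zero fun i _ => ?_
          have : e 0 i = 0 := by
            rw [he, Matrix.add_apply, Matrix.single_apply_of_row_ne h01.symm,
              Matrix.single_apply_of_row_ne h01.symm, add_zero]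
          rw [this, zero_mul]
        · intro i
          have h12 : π l = (e * π l) * e := by rw [mul_assoc]; exact h11
          rw [h12, Matrix.mul_apply, Matrix.mul_apply]
          refine Finset.sum_congr rfl fun j _ => ?_
          have : e j 0 = e j 1 := by
            rw [he, Matrix.add_apply, Matrix.add_apply]
            by_cases hj : j = 1
            · subst hj
              rw [Matrix.single_apply_same, Matrix.single_apply_same,
                Matrix.single_apply_of_col_ne _ _ h01.symm, Matrix.single_apply_of_col_ne _ _ h01]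
              ring
            · have hj' : (1 : Fin (k.succ + 1)) ≠ j := fun h => hj h.symm
              rw [Matrix.single_apply_of_row_ne hj', Matrix.single_apply_of_row_ne hj',
                Matrix.single_apply_of_row_ne hj', Matrix.single_apply_of_row_ne hj']
          rw [this]
      have hdec : ∀ (x : K'), x.1 ∈ K₂ → ∃ (ζ : F) (l : K'), c * l * c = l ∧
          π x = Matrix.scalar _ ζ + π l := by
        rintro x ⟨s, l, hx, hl⟩
        have h13 : (x - l).1 = algebraMap S Q s := by
          change x.1 - l.1 = _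
          rw [hx, add_sub_cancel_right]
        obtain ⟨ζ, hζ⟩ := hcen s (x - l) h13
        refine ⟨ζ, l, hl, ?_⟩
        rw [← hζ, map_sub, sub_add_cancel]
      have haK : a.1 ∉ K₂ := by
        intro h
        obtain ⟨ζ, l, hl, hx⟩ := hdec a h
        obtain ⟨h14, h15⟩ := hent l hl
        rw [ha, ha'eq] at hx
        have e00 := congrFun (congrFun hx 0) 0
        have e11 := congrFun (congrFun hx 1) 1
        have e10 := congrFun (congrFun hx 1) 0
        rw [Matrix.add_apply, h14 0, Matrix.single_apply_same, Matrix.scalar_apply,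
          Matrix.diagonal_apply_eq, add_zero] at e00
        rw [Matrix.add_apply, Matrix.single_apply_of_row_ne h01, Matrix.scalar_apply,
          Matrix.diagonal_apply_eq] at e11
        rw [Matrix.add_apply, Matrix.single_apply_of_row_ne h01, Matrix.scalar_apply,
          Matrix.diagonal_apply_ne _ h01.symm, zero_add, h15] at e10
        rw [← e10, add_zero] at e11
        exact ω.ne_zero (by rw [e00, ← e11])
      have hbK : b.1 ∉ K₂ := by
        intro h
        obtain ⟨ζ, l, hl, hx⟩ := hdec b h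
        obtain ⟨h14, h15⟩ := hent l hl
        rw [hb, hb'eq] at hx
        have e0l := congrFun (congrFun hx 0) (Fin.last _)
        have h0l : (0 : Fin (k.succ + 1)) ≠ Fin.last _ := by
          intro h
          have := congrArg Fin.val h
          simp at this
        rw [Matrix.add_apply, h14, Matrix.scalar_apply, Matrix.diagonal_apply_ne _ h0l,
          add_zero] at e0l
        simp [shiftMat] at e0l
      refine ⟨a.1, b.1, fun l hl => haK ?_, fun l hl => hbK ?_, htop, K₂, haK, hbK, c.1, ?_, ?_⟩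
      · rw [hl]; exact K₂.algebraMap_mem l
      · rw [hl]; exact K₂.algebraMap_mem l
      · refine ⟨0, c, by rw [map_zero, zero_add], by rw [hcc, hcc]⟩
      · intro s hs
        obtain ⟨ζ, hζ⟩ := hcen s c hs
        rw [hc, he] at hζ
        have e00 := congrFun (congrFun hζ 0) 0
        have e11 := congrFun (congrFun hζ 1) 1
        rw [Matrix.add_apply, Matrix.single_apply_of_row_ne h01.symm,
          Matrix.single_apply_of_row_ne h01.symm, Matrix.scalar_apply,
          Matrix.diagonal_apply_eq, add_zero] at e00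
        rw [Matrix.add_apply, Matrix.single_apply_same,
          Matrix.single_apply_of_col_ne _ _ h01, Matrix.scalar_apply,
          Matrix.diagonal_apply_eq, add_zero, ← e00] at e11
        exact one_ne_zero e11

end Pool.Agent.Y396.Frankl
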